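import Pool.Agent.R283.GV.TV

/-! # Countably many formulas are enough -/

set_option autoImplicit false

namespace Pool.Agent.R283.GV

open Pool.Agent.H504R3 (TVN)
open Pool.Agent.H504R3.S
open Pool.Agent.R970.SI
open TopologicalSpace

/-- countable sets of terms -/
noncomputable def TQ (n : ℕ) : ℕ → Set (Tm (Fin n))
  | 0 => {Tm.one} ∪ Set.range Tm.var
  | d + 1 => TQ n d ∪ Set.image2 Tm.add (TQ n d) (TQ n d) ∪ Set.image2 Tm.mul (TQ n d) (TQ n d) ∪
      Tm.adj '' (TQ n d) ∪ ⋃ m : ℕ, Tm.scal (denseSeq ℂ m) '' (TQ n d)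

theorem TQ_countable (n d : ℕ) : (TQ n d).Countable := by
  induction d with
  | zero => exact (Set.countable_singleton _).union (Set.countable_range _)
  | succ d ih =>
    exact (((ih.union (ih.image2 ih _)).union (ih.image2 ih _)).union (ih.image _)).union
      (Set.countable_iUnion fun m => ih.image _)

theorem TQ_mono (n : ℕ) : Monotone (TQ n) := by
  apply monotone_nat_of_le_succ
  intro d t ht
  exact Or.inl (Or.inl (Or.inl (Or.inl ht)))

theorem approx_term (T : TVN) {n : ℕ} (t : Tm (Fin n)) {R : ℝ} (hR : 0 ≤ R) :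
    ∀ ε : ℝ, 0 < ε → ∃ d, ∃ t' ∈ TQ n d, ∀ x : Fin n → T.E, (∀ i, T.opNorm (x i) ≤ R) →
      T.opNorm (tval T x t - tval T x t') ≤ ε := by
  induction t with
  | var v =>
    intro ε hε
    refine ⟨0, Tm.var v, Or.inr ⟨v, rfl⟩, fun x _ => ?_⟩
    rw [sub_self, op_zero]
    exact hε.le
  | one =>
    intro ε hε
    refine ⟨0, Tm.one, Or.inl rfl, fun x _ => ?_⟩
    rw [sub_self, op_zero]
    exact hε.le
  | add s t hs ht =>
    intro ε hε
    obtain ⟨d, s', hs', h1⟩ := hs (ε / 2) (by positivity)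
    obtain ⟨e, t', ht', h2⟩ := ht (ε / 2) (by positivity)
    refine ⟨max d e + 1, Tm.add s' t', Or.inl (Or.inl (Or.inl (Or.inr
      ⟨s', TQ_mono n (le_max_left _ _) hs', t', TQ_mono n (le_max_right _ _) ht', rfl⟩))),
      fun x hx => ?_⟩
    have e1 : tval T x (Tm.add s t) - tval T x (Tm.add s' t') =
        (tval T x s - tval T x s') + (tval T x t - tval T x t') := by
      show (tval T x s + tval T x t) - (tval T x s' + tval T x t') = _
      abel
    rw [e1]
    refine (op_add T _ _).trans ?_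
    linarith [h1 x hx, h2 x hx]
  | mul s t hs ht =>
    intro ε hε
    obtain ⟨Cs, hCs, hbs⟩ := term_bound s hR
    obtain ⟨Ct, hCt, hbt⟩ := term_bound t hR
    set δ : ℝ := min 1 (ε / (Cs + Ct + 1)) with hδ
    have hδ0 : 0 < δ := lt_min one_pos (by positivity)
    have hδ1 : δ ≤ 1 := min_le_left _ _
    have hδ2 : δ * (Cs + Ct + 1) ≤ ε := by
      have := min_le_right 1 (ε / (Cs + Ct + 1))
      rwa [← hδ, le_div_iff₀ (by positivity)] at this
    obtain ⟨d, s', hs', h1⟩ := hs δ hδ0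
    obtain ⟨e, t', ht', h2⟩ := ht δ hδ0
    refine ⟨max d e + 1, Tm.mul s' t', Or.inl (Or.inl (Or.inr
      ⟨s', TQ_mono n (le_max_left _ _) hs', t', TQ_mono n (le_max_right _ _) ht', rfl⟩)),
      fun x hx => ?_⟩
    have e1 : tval T x (Tm.mul s t) - tval T x (Tm.mul s' t') =
        tval T x s * (tval T x t - tval T x t') + (tval T x s - tval T x s') *
          (tval T x t + -(tval T x t - tval T x t')) := by
      show (tval T x s * tval T x t) - (tval T x s' * tval T x t') = _
      noncomm_ring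
    rw [e1]
    have h3 := h1 x hx
    have h4 := h2 x hx
    have h5 := hbs T x hx
    have h6 := hbt T x hx
    have h7 : T.opNorm (-(tval T x t - tval T x t')) = T.opNorm (tval T x t - tval T x t') := by
      have := op_smul T (-1) (tval T x t - tval T x t')
      rw [neg_one_smul] at this
      rw [this]
      simp
    calc _ ≤ T.opNorm (tval T x s * (tval T x t - tval T x t')) +
          T.opNorm ((tval T x s - tval T x s') * (tval T x t + -(tval T x t - tval T x t'))) :=
          op_add T _ _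
      _ ≤ Cs * δ + δ * (Ct + δ) := by
          apply add_le_add
          · refine (op_mul T _ _).trans ?_
            exact mul_le_mul h5 h4 (op_nonneg T _) hCs
          · refine (op_mul T _ _).trans ?_
            refine mul_le_mul h3 ((op_add T _ _).trans ?_) (op_nonneg T _) hδ0.le
            rw [h7]
            exact add_le_add h6 h4
      _ ≤ ε := by nlinarith
  | adj s hs =>
    intro ε hε
    obtain ⟨d, s', hs', h1⟩ := hs ε hε
    refine ⟨d + 1, Tm.adj s', Or.inl (Or.inr ⟨s', hs', rfl⟩), fun x hx => ?_⟩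
    have e1 : tval T x (Tm.adj s) - tval T x (Tm.adj s') = star (tval T x s - tval T x s') := by
      show star (tval T x s) - star (tval T x s') = _
      rw [star_sub]
    rw [e1, op_star]
    exact h1 x hx
  | scal c s hs =>
    intro ε hε
    obtain ⟨Cs, hCs, hbs⟩ := term_bound s hR
    set δ : ℝ := min 1 (ε / (Cs + ‖c‖ + 1)) with hδ
    have hδ0 : 0 < δ := lt_min one_pos (by positivity)
    have hδ1 : δ ≤ 1 := min_le_left _ _
    have hδ2 : δ * (Cs + ‖c‖ + 1) ≤ ε := by
      have := min_le_right 1 (ε / (Cs + ‖c‖ + 1))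
      rwa [← hδ, le_div_iff₀ (by positivity)] at this
    obtain ⟨d, s', hs', h1⟩ := hs δ hδ0
    obtain ⟨m, hm⟩ : ∃ m, ‖c - denseSeq ℂ m‖ < δ := by
      have h2 := (denseRange_denseSeq ℂ).exists_dist_lt c hδ0
      obtain ⟨m, hm⟩ := h2
      exact ⟨m, by rwa [← dist_eq_norm]⟩
    refine ⟨d + 1, Tm.scal (denseSeq ℂ m) s', Or.inr (Set.mem_iUnion.2 ⟨m, s', hs', rfl⟩),
      fun x hx => ?_⟩
    set c' := denseSeq ℂ m with hc'
    have e1 : tval T x (Tm.scal c s) - tval T x (Tm.scal c' s') =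
        (c - c') • tval T x s + c' • (tval T x s - tval T x s') := by
      show c • tval T x s - c' • tval T x s' = _
      rw [sub_smul, smul_sub]
      abel
    have h3 : ‖c'‖ ≤ ‖c‖ + δ := by
      have := norm_sub_norm_le c' c
      rw [norm_sub_rev] at this
      linarith
    rw [e1]
    calc _ ≤ T.opNorm ((c - c') • tval T x s) + T.opNorm (c' • (tval T x s - tval T x s')) :=
          op_add T _ _
      _ ≤ δ * Cs + (‖c‖ + δ) * δ := by
          rw [op_smul, op_smul]
          apply add_le_add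
          · exact mul_le_mul hm.le (hbs T x hx) (op_nonneg T _) hδ0.le
          · exact mul_le_mul h3 (h1 x hx) (op_nonneg T _) (by positivity)
      _ ≤ ε := by nlinarith [norm_nonneg c]

/-- countable sets of formulas -/
noncomputable def SQ : ℕ → (n : ℕ) → Set (Fm n)
  | 0, n => ⋃ d, (Fm.re '' TQ n d ∪ Fm.im '' TQ n d ∪ Fm.nrm '' TQ n d)
  | d + 1, n => SQ d n ∪ (⋃ k : ℕ, ⋃ m : ℕ,
      (fun φ : Fin k → Fm n => Fm.conn (denseSeq C(Fin k → ℝ, ℝ) m) φ) ''
        {φ | ∀ i, φ i ∈ SQ d n}) ∪ (⋃ r : ℕ, Fm.sup r '' SQ d (n + 1)) ∪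
      ⋃ r : ℕ, Fm.inf r '' SQ d (n + 1)

theorem SQ_countable (d : ℕ) : ∀ n, (SQ d n).Countable := by
  induction d with
  | zero =>
    intro n
    exact Set.countable_iUnion fun d => (((TQ_countable n d).image _).union
      ((TQ_countable n d).image _)).union ((TQ_countable n d).image _)
  | succ d ih =>
    intro n
    refine (((ih n).union ?_).union ?_).union ?_
    · exact Set.countable_iUnion fun k => Set.countable_iUnion fun m =>
        (Set.countable_pi fun _ => ih n).image _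
    · exact Set.countable_iUnion fun r => (ih (n + 1)).image _
    · exact Set.countable_iUnion fun r => (ih (n + 1)).image _

theorem SQ_mono (n : ℕ) : Monotone (fun d => SQ d n) := by
  apply monotone_nat_of_le_succ
  intro d t ht
  exact Or.inl (Or.inl (Or.inl ht))

/-- a function in the dense sequence close to `u` on a compact set -/
theorem exists_dense_fun {k : ℕ} (u : C(Fin k → ℝ, ℝ)) {K : Set (Fin k → ℝ)} (hK : IsCompact K)
    {ε : ℝ} (hε : 0 < ε) : ∃ m, ∀ p ∈ K, |u p - denseSeq C(Fin k → ℝ, ℝ) m p| ≤ ε := by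
  have h1 : Filter.Tendsto (fun v : C(Fin k → ℝ, ℝ) => v) (nhds u) (nhds u) := Filter.tendsto_id
  rw [ContinuousMap.tendsto_iff_forall_isCompact_tendstoUniformlyOn] at h1
  have h2 := h1 K hK
  rw [Metric.tendstoUniformlyOn_iff] at h2
  have h3 := h2 ε hε
  have h4 : ∃ m, denseSeq C(Fin k → ℝ, ℝ) m ∈
      {v : C(Fin k → ℝ, ℝ) | ∀ p ∈ K, dist (u p) (v p) < ε} :=
    (denseRange_denseSeq C(Fin k → ℝ, ℝ)).mem_nhds h3
  obtain ⟨m, hm⟩ := h4
  refine ⟨m, fun p hp => ?_⟩
  have := hm p hp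
  rw [Real.dist_eq] at this
  exact this.le

theorem abs_sup_sub_le {α : Type} [Nonempty α] {f g : α → ℝ} {C ε : ℝ} (hf : ∀ a, |f a| ≤ C)
    (hfg : ∀ a, |f a - g a| ≤ ε) : |(⨆ a, f a) - ⨆ a, g a| ≤ ε := by
  have hg : ∀ a, |g a| ≤ C + ε := by
    intro a
    have h1 := abs_le.1 (hf a)
    have h2 := abs_le.1 (hfg a)
    rw [abs_le]
    constructor <;> linarith
  rw [abs_le]
  constructor
  · have : (⨆ a, g a) ≤ (⨆ a, f a) + ε := by
      refine ciSup_le fun a => ?_
      have h1 := le_ciSup (f := f) ⟨C, by rintro _ ⟨b, rfl⟩; exact (abs_le.1 (hf b)).2⟩ a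
      have h2 := abs_le.1 (hfg a)
      linarith
    linarith
  · have : (⨆ a, f a) ≤ (⨆ a, g a) + ε := by
      refine ciSup_le fun a => ?_
      have h1 := le_ciSup (f := g) ⟨C + ε, by rintro _ ⟨b, rfl⟩; exact (abs_le.1 (hg b)).2⟩ a
      have h2 := abs_le.1 (hfg a)
      linarith
    linarith

theorem abs_inf_sub_le {α : Type} [Nonempty α] {f g : α → ℝ} {C ε : ℝ} (hf : ∀ a, |f a| ≤ C)
    (hfg : ∀ a, |f a - g a| ≤ ε) : |(⨅ a, f a) - ⨅ a, g a| ≤ ε := by
  have hg : ∀ a, |g a| ≤ C + ε := by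
    intro a
    have h1 := abs_le.1 (hf a)
    have h2 := abs_le.1 (hfg a)
    rw [abs_le]
    constructor <;> linarith
  rw [abs_le]
  constructor
  · have : (⨅ a, g a) - ε ≤ ⨅ a, f a := by
      refine le_ciInf fun a => ?_
      have h1 := ciInf_le (f := g) ⟨-(C + ε), by rintro _ ⟨b, rfl⟩; exact (abs_le.1 (hg b)).1⟩ a
      have h2 := abs_le.1 (hfg a)
      linarith
    linarith
  · have : (⨅ a, f a) - ε ≤ ⨅ a, g a := by
      refine le_ciInf fun a => ?_
      have h1 := ciInf_le (f := f) ⟨-C, by rintro _ ⟨b, rfl⟩; exact (abs_le.1 (hf b)).1⟩ a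
      have h2 := abs_le.1 (hfg a)
      linarith
    linarith

theorem approx_fm (T : TVN) {n : ℕ} (φ : Fm n) : ∀ R : ℝ, 0 ≤ R →
    ∀ ε : ℝ, 0 < ε → ∃ d, ∃ ψ ∈ SQ d n, ∀ x : Fin n → T.E, (∀ i, T.opNorm (x i) ≤ R) →
      |φ.val (str T) x - ψ.val (str T) x| ≤ ε := by
  induction φ with
  | @re n t =>
    intro R hR ε hε
    obtain ⟨d, t', ht', h⟩ := approx_term T t hR ε hε
    refine ⟨0, Fm.re t', Set.mem_iUnion.2 ⟨d, Or.inl (Or.inl ⟨t', ht', rfl⟩)⟩, fun x hx => ?_⟩
    have e : (Fm.re t).val (str T) x - (Fm.re t').val (str T) x =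
        (T.τ (tval T x t - tval T x t')).re := by
      rw [map_sub]; rfl
    rw [e]
    exact (Complex.abs_re_le_norm _).trans ((tau_le T _).trans ((norm2_le_op T _).trans (h x hx)))
  | @im n t =>
    intro R hR ε hε
    obtain ⟨d, t', ht', h⟩ := approx_term T t hR ε hε
    refine ⟨0, Fm.im t', Set.mem_iUnion.2 ⟨d, Or.inl (Or.inr ⟨t', ht', rfl⟩)⟩, fun x hx => ?_⟩
    have e : (Fm.im t).val (str T) x - (Fm.im t').val (str T) x =
        (T.τ (tval T x t - tval T x t')).im := by
      rw [map_sub]; rfl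
    rw [e]
    exact (Complex.abs_im_le_norm _).trans ((tau_le T _).trans ((norm2_le_op T _).trans (h x hx)))
  | @nrm n t =>
    intro R hR ε hε
    obtain ⟨d, t', ht', h⟩ := approx_term T t hR ε hε
    refine ⟨0, Fm.nrm t', Set.mem_iUnion.2 ⟨d, Or.inr ⟨t', ht', rfl⟩⟩, fun x hx => ?_⟩
    exact (abs_norm2_sub T (tval T x t) (tval T x t')).trans ((norm2_le_op T _).trans (h x hx))
  | @conn n k u φ ih =>
    intro R hR ε hε
    choose C hC using fun i => (good (φ i)).1 R hR
    have hcomp : IsCompact (Set.pi Set.univ fun i : Fin k => Set.Icc (-(C i + 1)) (C i + 1)) :=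
      isCompact_univ_pi fun i => isCompact_Icc
    have huc := hcomp.uniformContinuousOn_of_continuous (f := u) u.continuous.continuousOn
    rw [Metric.uniformContinuousOn_iff_le] at huc
    obtain ⟨η, hη, huc⟩ := huc (ε / 2) (by positivity)
    obtain ⟨m, hm⟩ := exists_dense_fun u hcomp (ε := ε / 2) (by positivity)
    choose d ψ hψ h using fun i => ih i R hR (min η 1) (lt_min hη one_pos)
    refine ⟨Finset.univ.sup d + 1, Fm.conn (denseSeq C(Fin k → ℝ, ℝ) m) ψ,
      Or.inl (Or.inl (Or.inr (Set.mem_iUnion.2 ⟨k, Set.mem_iUnion.2 ⟨m, ψ, fun i => ?_, rfl⟩⟩))),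
      fun x hx => ?_⟩
    · exact SQ_mono n (Finset.le_sup (Finset.mem_univ i)) (hψ i)
    · have h1 : (fun i => (φ i).val (str T) x) ∈
          Set.pi Set.univ fun i : Fin k => Set.Icc (-(C i + 1)) (C i + 1) := by
        intro i _
        have := abs_le.1 (hC i T x hx)
        constructor <;> linarith
      have h2 : (fun i => (ψ i).val (str T) x) ∈
          Set.pi Set.univ fun i : Fin k => Set.Icc (-(C i + 1)) (C i + 1) := by
        intro i _
        have h3 := abs_le.1 (hC i T x hx)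
        have h4 := abs_le.1 ((h i x hx).trans (min_le_right _ _))
        constructor <;> linarith
      have h3 := huc _ h1 _ h2 (by
        rw [dist_pi_le_iff hη.le]
        intro i
        rw [Real.dist_eq]
        exact (h i x hx).trans (min_le_left _ _))
      rw [Real.dist_eq] at h3
      have h4 := hm _ h2
      show |u (fun i => (φ i).val (str T) x) -
        (denseSeq C(Fin k → ℝ, ℝ) m) (fun i => (ψ i).val (str T) x)| ≤ ε
      have h5 := abs_sub_le (u (fun i => (φ i).val (str T) x)) (u (fun i => (ψ i).val (str T) x))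
        ((denseSeq C(Fin k → ℝ, ℝ) m) (fun i => (ψ i).val (str T) x))
      linarith
  | @sup n r φ ih =>
    intro R hR ε hε
    obtain ⟨d, ψ, hψ, h⟩ := ih (max R r) (by positivity) ε hε
    obtain ⟨C, hC⟩ := (good φ).1 (max R r) (by positivity)
    refine ⟨d + 1, Fm.sup r ψ, Or.inl (Or.inr (Set.mem_iUnion.2 ⟨r, ψ, hψ, rfl⟩)), fun x hx => ?_⟩
    have := ball_nonempty T r
    exact abs_sup_sub_le (α := (str T).Ball r) (fun y => hC T _ (cons_op hx y))
      (fun y => h _ (cons_op hx y))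
  | @inf n r φ ih =>
    intro R hR ε hε
    obtain ⟨d, ψ, hψ, h⟩ := ih (max R r) (by positivity) ε hε
    obtain ⟨C, hC⟩ := (good φ).1 (max R r) (by positivity)
    refine ⟨d + 1, Fm.inf r ψ, Or.inr (Set.mem_iUnion.2 ⟨r, ψ, hψ, rfl⟩), fun x hx => ?_⟩
    have := ball_nonempty T r
    exact abs_inf_sub_le (α := (str T).Ball r) (fun y => hC T _ (cons_op hx y))
      (fun y => h _ (cons_op hx y))

end Pool.Agent.R283.GV
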