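import Pool.Agent.H504R3.SDefs

/-! # The group von Neumann algebra of a discrete group as a structure of continuous logic -/

set_option autoImplicit false

namespace Pool.Agent.R283.GV

open Pool.Agent.H504R3.S

section

variable {H : Type} [NormedAddCommGroup H] [InnerProductSpace ℂ H] [CompleteSpace H]

/-- The double commutant of `S ∪ S*` (`StarSubalgebra.centralizer ℂ S` is the commutant of
`S ∪ S*`). -/
noncomputable def bicomm (S : Set (H →L[ℂ] H)) : StarSubalgebra ℂ (H →L[ℂ] H) :=
  StarSubalgebra.centralizer ℂ (StarSubalgebra.centralizer ℂ S : Set (H →L[ℂ] H))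

theorem bicomm_bicomm (S : Set (H →L[ℂ] H)) :
    Set.centralizer (Set.centralizer (bicomm S : Set (H →L[ℂ] H))) = bicomm S := by
  show Set.centralizer (Set.centralizer ((StarSubalgebra.centralizer ℂ
      (StarSubalgebra.centralizer ℂ S : Set (H →L[ℂ] H)) : StarSubalgebra ℂ (H →L[ℂ] H)) :
        Set (H →L[ℂ] H))) = ((StarSubalgebra.centralizer ℂ
      (StarSubalgebra.centralizer ℂ S : Set (H →L[ℂ] H)) : StarSubalgebra ℂ (H →L[ℂ] H)) :
        Set (H →L[ℂ] H))
  rw [StarSubalgebra.coe_centralizer_centralizer, Set.centralizer_centralizer_centralizer]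

/-- The von Neumann algebra on `H` generated by a set `S` of bounded operators: the double
commutant of `S ∪ S*`. -/
noncomputable def vnGen (S : Set (H →L[ℂ] H)) : VonNeumannAlgebra H :=
  ⟨bicomm S, bicomm_bicomm S⟩

end

/-- The Hilbert space `ℓ²(G)`. -/
def L2 (G : Type) : Type := lp (fun _ : G => ℂ) 2

noncomputable instance (G : Type) : NormedAddCommGroup (L2 G) :=
  (inferInstance : NormedAddCommGroup (lp (fun _ : G => ℂ) 2))

noncomputable instance (G : Type) : InnerProductSpace ℂ (L2 G) :=
  (inferInstance : InnerProductSpace ℂ (lp (fun _ : G => ℂ) 2))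

instance (G : Type) : CompleteSpace (L2 G) :=
  (inferInstance : CompleteSpace (lp (fun _ : G => ℂ) 2))

/-- The value of `f ∈ ℓ²(G)` at `h ∈ G`. -/
noncomputable def L2.val {G : Type} (f : L2 G) (h : G) : ℂ := Subtype.val (show lp (fun _ : G => ℂ) 2 from f) h

/-- The vector `δ_1` of `ℓ²(G)`. -/
noncomputable def deltaOne (G : Type) [Group G] : L2 G := by
  classical exact lp.single 2 (1 : G) (1 : ℂ)

/-- The left translations of `ℓ²(G)`: the operators `(λ_g f)(h) = f(g⁻¹ h)`, `g ∈ G`. -/
def translations (G : Type) [Group G] : Set (L2 G →L[ℂ] L2 G) :=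
  {T | ∃ g : G, ∀ (f : L2 G) (h : G), (T f).val h = f.val (g⁻¹ * h)}

/-- The structure `L(G)` of the continuous logic of tracial von Neumann algebras: the von Neumann
algebra on `ℓ²(G)` generated by the left translations, with the algebraic operations, the operator
norm and the canonical trace `x ↦ ⟨δ_1, x δ_1⟩`. -/
noncomputable def groupL (G : Type) [Group G] : Str :=
  vnStr (vnGen (translations G)) (fun k => if k = 0 then deltaOne G else 0)

end Pool.Agent.R283.GV
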