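import Mathlib

/-! # The first-order language of groups, existentially saturated groups, infinitely generic
groups, existentially closed groups -/

set_option autoImplicit false

namespace Pool.Agent.R283.GV

open FirstOrder Language Function

/-- The function symbols of the language of groups: `1`, `⁻¹` and `·`. -/
inductive GrpFn : ℕ → Type
  | one : GrpFn 0
  | inv : GrpFn 1
  | mul : GrpFn 2

/-- The first-order language of groups (no relation symbols). -/
def LGrp : Language := ⟨GrpFn, fun _ => Empty⟩

/-- A group as a structure for the language of groups. -/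
instance grpStructure (G : Type) [Group G] : LGrp.Structure G where
  funMap := fun {_} f => match f with
    | .one => fun _ => 1
    | .inv => fun x => (x 0)⁻¹
    | .mul => fun x => x 0 * x 1
  RelMap := fun r => r.elim

/-- `G` is `ω`-existentially saturated: it realizes every existential type over a finite parameter
set, that is every set `S` of existential formulas `φ(a, x)`, `a` a finite tuple of `G` and `x` a
finite tuple of variables, which is realized in some group `K` containing `G`. -/
def IsExSat (G : Type) [Group G] : Prop :=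
  ∀ (p n : ℕ) (a : Fin p → G) (S : Set (LGrp.Formula (Fin p ⊕ Fin n))),
    (∀ φ ∈ S, BoundedFormula.IsExistential φ) →
    (∃ (K : Type) (_ : Group K) (i : G →* K) (x : Fin n → K), Injective i ∧
      ∀ φ ∈ S, Formula.Realize φ (Sum.elim (fun j => i (a j)) x)) →
    ∃ x : Fin n → G, ∀ φ ∈ S, Formula.Realize φ (Sum.elim a x)

/-- `H` is infinitely generic: it is (isomorphic to) an elementary subgroup of some
`ω`-existentially saturated group `G`. -/
def IsInfGeneric (H : Type) [Group H] : Prop :=
  ∃ (G : Type) (_ : Group G) (i : H →* G), Injective i ∧ IsExSat G ∧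
    ∀ (n : ℕ) (φ : LGrp.Formula (Fin n)) (x : Fin n → H),
      φ.Realize (fun j => i (x j)) ↔ φ.Realize x

/-- `x` solves in `K` the system of the equations `w = 1`, `w ∈ E`, and the inequations `w ≠ 1`,
`w ∈ N`, where the constants `g ∈ G` are evaluated as `c g`. -/
def Solves {G K : Type} [Group K] {n : ℕ} (c : G → K) (x : Fin n → K)
    (E N : Finset (FreeGroup (G ⊕ Fin n))) : Prop :=
  (∀ w ∈ E, FreeGroup.lift (Sum.elim c x) w = 1) ∧ ∀ w ∈ N, FreeGroup.lift (Sum.elim c x) w ≠ 1

/-- `G` is existentially closed: every finite system of equations `w = 1`, `w ∈ E`, and inequations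
`w ≠ 1`, `w ∈ N`, with constants from `G` that has a solution in some group `K` containing `G` has a
solution in `G`. -/
def IsExClosed (G : Type) [Group G] : Prop :=
  ∀ (n : ℕ) (E N : Finset (FreeGroup (G ⊕ Fin n))),
    (∃ (K : Type) (_ : Group K) (i : G →* K) (x : Fin n → K), Injective i ∧ Solves i x E N) →
    ∃ x : Fin n → G, Solves id x E N

/-- the embedding property of the saturated group -/
def Univ (G : Type) [Group G] : Prop :=
  ∀ (p : ℕ) (a : Fin p → G) (K : Type) [Group K] (i : G →* K), Injective i →
    ∀ N : Subgroup K, Countable N → ∀ hN : ∀ j, i (a j) ∈ N,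
      ∃ f : N →* G, Injective f ∧ ∀ j, f ⟨i (a j), hN j⟩ = a j

/-- a homomorphism of groups as a map of structures -/
def homMap {G K : Type} [Group G] [Group K] (f : G →* K) : G →[LGrp] K where
  toFun := f
  map_fun' := by
    intro n g x
    cases g with
    | one => exact map_one f
    | inv => exact map_inv f _
    | mul => exact map_mul f _ _
  map_rel' := by
    intro n r
    exact r.elim

/-- an injective homomorphism as an embedding -/
def homEmb {G K : Type} [Group G] [Group K] (f : G →* K) (hf : Injective f) : G ↪[LGrp] K where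
  toFun := f
  inj' := hf
  map_fun' := (homMap f).map_fun'
  map_rel' := by
    intro n r
    exact r.elim

theorem card_LGrp : LGrp.card ≤ Cardinal.aleph0 := by
  have h1 : Countable (Σ l, LGrp.Functions l) := by
    have : Countable (Fin 3) := inferInstance
    refine Function.Surjective.countable (f := fun i : Fin 3 => (![⟨0, .one⟩, ⟨1, .inv⟩, ⟨2, .mul⟩] i
      : Σ l, LGrp.Functions l)) ?_
    rintro ⟨l, f⟩
    cases f with
    | one => exact ⟨0, rfl⟩
    | inv => exact ⟨1, rfl⟩
    | mul => exact ⟨2, rfl⟩
  have h2 : IsEmpty (Σ l, LGrp.Relations l) := ⟨fun x => x.2.elim⟩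
  unfold Language.card Language.Symbols
  rw [Cardinal.mk_le_aleph0_iff]
  infer_instance

/-- the subgroup underlying a substructure -/
def subOf {G : Type} [Group G] (S : LGrp.Substructure G) : Subgroup G where
  carrier := S
  mul_mem' := by
    intro a b ha hb
    have := S.fun_mem (n := 2) GrpFn.mul ![a, b] (by
      intro i
      fin_cases i
      · exact ha
      · exact hb)
    exact this
  one_mem' := by
    have := S.fun_mem (n := 0) GrpFn.one ![] (fun i => i.elim0)
    exact this
  inv_mem' := by
    intro a ha
    have := S.fun_mem (n := 1) GrpFn.inv ![a] (by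
      intro i
      fin_cases i
      exact ha)
    exact this

/-- a subgroup as a substructure -/
def subStr {G : Type} [Group G] (H : Subgroup G) : LGrp.Substructure G where
  carrier := H
  fun_mem := by
    intro n f x hx
    cases f with
    | one => exact H.one_mem
    | inv => exact H.inv_mem (hx 0)
    | mul => exact H.mul_mem (hx 0) (hx 1)

/-- `H` is an elementary subgroup -/
def ElemSub {G : Type} [Group G] (H : Subgroup G) : Prop := (subStr H).IsElementary

theorem exists_elem {G : Type} [Group G] [Infinite G] (s : Set G) (hs : s.Countable) :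
    ∃ H : Subgroup G, s ⊆ H ∧ Countable H ∧ ElemSub H := by
  obtain ⟨S, hS, hc⟩ := exists_elementarySubstructure_card_eq LGrp s Cardinal.aleph0.{0} le_rfl
    (by simpa using hs.le_aleph0) (by simpa using card_LGrp)
    (by simpa using Cardinal.aleph0_le_mk G)
  refine ⟨subOf S, hS, ?_, ?_⟩
  · have h1 : Cardinal.mk S = Cardinal.aleph0 := by simpa using hc
    have h2 : Countable S := Cardinal.mk_le_aleph0_iff.1 h1.le
    exact h2
  · exact S.isElementary

theorem ind_eq {G : Type} [Group G] (H : Subgroup G) :
    (Substructure.inducedStructure (S := subStr H) : LGrp.Structure H) = grpStructure H := by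
  refine Language.Structure.ext ?_ ?_
  · funext n f x
    cases f <;> rfl
  · funext n r
    exact r.elim

theorem realize_ind {G : Type} [Group G] (H : Subgroup G) {α : Type} (φ : LGrp.Formula α)
    (x : α → H) : @Formula.Realize LGrp (subStr H) Substructure.inducedStructure α φ x ↔
      φ.Realize x := by
  have h := ind_eq H
  have h2 : ∀ (i1 i2 : LGrp.Structure H), i1 = i2 →
      (@Formula.Realize LGrp H i1 α φ x ↔ @Formula.Realize LGrp H i2 α φ x) := by
    rintro i1 _ rfl
    exact Iff.rfl
  exact h2 _ _ h

theorem elemSub_iff {G : Type} [Group G] {H : Subgroup G} (hH : ElemSub H) (n : ℕ)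
    (φ : LGrp.Formula (Fin n)) (x : Fin n → H) :
    φ.Realize (fun j => (x j : G)) ↔ φ.Realize x := by
  have h := hH φ x
  exact h.trans (realize_ind H φ x)

/-- the union of a chain of elementary subgroups is elementary -/
theorem elem_iUnion {G : Type} [Group G] (K : ℕ → Subgroup G) (hK : Monotone K)
    (he : ∀ j, ElemSub (K j)) (H : Subgroup G) (hH : ∀ g, g ∈ H ↔ ∃ j, g ∈ K j) : ElemSub H := by
  apply Substructure.isElementary_of_exists
  intro n φ x a hφ
  have h1 : ∃ j, ∀ i, ((x i : H) : G) ∈ K j := by
    choose j hj using fun i => (hH (x i : G)).1 (x i).2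
    refine ⟨Finset.univ.sup j, fun i => hK (Finset.le_sup (Finset.mem_univ i)) (hj i)⟩
  obtain ⟨j, hj⟩ := h1
  let S : LGrp.ElementarySubstructure G := ⟨subStr (K j), he j⟩
  let y : Fin n → S := fun i => ⟨(x i : G), hj i⟩
  have h2 : φ.ex.Realize (default : Empty → S) y := by
    have h3 := S.subtype.map_boundedFormula φ.ex default y
    rw [← h3, BoundedFormula.realize_ex]
    refine ⟨a, ?_⟩
    have e : (S.subtype ∘ (default : Empty → S)) = (default : Empty → G) := Subsingleton.elim _ _
    rw [e]
    exact hφ
  rw [BoundedFormula.realize_ex] at h2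
  obtain ⟨b, hb⟩ := h2
  have h3 := (S.subtype.map_boundedFormula φ default (Fin.snoc y b)).2 hb
  refine ⟨⟨(b : G), (hH _).2 ⟨j, b.2⟩⟩, ?_⟩
  have e : (S.subtype ∘ (default : Empty → S)) = (default : Empty → G) := Subsingleton.elim _ _
  rw [e, Fin.comp_snoc] at h3
  exact h3

theorem exSat_of_univ {G : Type} [Group G] (hG : Univ G) : IsExSat G := by
  intro p n a S hS ⟨K, iK, i, x, hi, hx⟩
  have hfin : (Set.range (fun j => i (a j)) ∪ Set.range x).Countable :=
    ((Set.finite_range _).union (Set.finite_range _)).countable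
  -- a countable elementary subgroup (or the whole of `K` if it is finite)
  obtain ⟨N, hsN, hNc, hNe⟩ : ∃ N : Subgroup K, (Set.range (fun j => i (a j)) ∪ Set.range x) ⊆ N ∧
      Countable N ∧ ElemSub N := by
    rcases finite_or_infinite K with hK | hK
    · refine ⟨⊤, fun _ _ => trivial, inferInstance, ?_⟩
      apply Substructure.isElementary_of_exists
      intro n φ x a hφ
      exact ⟨⟨a, trivial⟩, hφ⟩
    · exact exists_elem _ hfin
  have hNa : ∀ j, i (a j) ∈ N := fun j => hsN (Or.inl ⟨j, rfl⟩)
  have hNx : ∀ j, x j ∈ N := fun j => hsN (Or.inr ⟨j, rfl⟩)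
  obtain ⟨f, hf, hfa⟩ := hG p a K i hi N hNc hNa
  refine ⟨fun j => f ⟨x j, hNx j⟩, fun φ hφ => ?_⟩
  have h1 : φ.Realize (Sum.elim (fun j => (⟨i (a j), hNa j⟩ : N)) (fun j => ⟨x j, hNx j⟩)) := by
    let T : LGrp.ElementarySubstructure K := ⟨subStr N, hNe⟩
    let v : Fin p ⊕ Fin n → T := Sum.elim (fun j => (⟨i (a j), hNa j⟩ : N)) (fun j => ⟨x j, hNx j⟩)
    have h2 := T.subtype.map_formula φ v
    have h3 : T.subtype ∘ v = Sum.elim (fun j => i (a j)) x := by
      funext j
      rcases j with j | j <;> rfl
    rw [h3] at h2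
    exact (realize_ind N φ _).1 (h2.1 (hx φ hφ))
  have h2 := (hS φ hφ).realize_embedding (F := N ↪[LGrp] G) (homEmb f hf) h1
  have h3 : (homEmb f hf) ∘ (Sum.elim (fun j => (⟨i (a j), hNa j⟩ : N)) (fun j => ⟨x j, hNx j⟩))
      = Sum.elim a (fun j => f ⟨x j, hNx j⟩) := by
    funext j
    rcases j with j | j
    · exact hfa j
    · rfl
  rw [h3] at h2
  have h4 : ((homEmb f hf) ∘ (default : Fin 0 → N)) = (default : Fin 0 → G) := Subsingleton.elim _ _
  rw [h4] at h2
  exact h2

/-- the two groups of the amalgam -/
def Fam (G K : Type) : Bool → Type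
  | true => G
  | false => K

instance famGroup (G K : Type) [Group G] [Group K] : ∀ b, Group (Fam G K b)
  | true => inferInstanceAs (Group G)
  | false => inferInstanceAs (Group K)

/-- the two embeddings of the amalgam -/
def famMap {H G K : Type} [Group H] [Group G] [Group K] (f : H →* G) (g : H →* K) :
    ∀ b, H →* Fam G K b
  | true => f
  | false => g

theorem famMap_injective {H G K : Type} [Group H] [Group G] [Group K] {f : H →* G} {g : H →* K}
    (hf : Injective f) (hg : Injective g) : ∀ b, Injective (famMap f g b)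
  | true => hf
  | false => hg

/-- amalgamation of groups -/
theorem exists_amalgam {H G K : Type} [Group H] [Group G] [Group K] {f : H →* G} {g : H →* K}
    (hf : Injective f) (hg : Injective g) : ∃ (P : Type) (_ : Group P) (jG : G →* P) (jK : K →* P),
      Injective jG ∧ Injective jK ∧ ∀ h, jG (f h) = jK (g h) := by
  refine ⟨Monoid.PushoutI (famMap f g), inferInstance,
    (Monoid.PushoutI.of (φ := famMap f g) true : Fam G K true →* _),
    (Monoid.PushoutI.of (φ := famMap f g) false : Fam G K false →* _),
    Monoid.PushoutI.of_injective (famMap_injective hf hg) true,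
    Monoid.PushoutI.of_injective (famMap_injective hf hg) false, fun h => ?_⟩
  have h1 := Monoid.PushoutI.of_apply_eq_base (famMap f g) true h
  have h2 := Monoid.PushoutI.of_apply_eq_base (famMap f g) false h
  exact h1.trans h2.symm

theorem countable_closure {G : Type} [Group G] {s : Set G} (hs : s.Countable) :
    Countable (Subgroup.closure s) := by
  have := hs.to_subtype
  rw [FreeGroup.closure_eq_range]
  exact (MonoidHom.rangeRestrict_surjective (FreeGroup.lift ((↑) : s → G))).countable

/-- An existentially closed subgroup (for systems solvable in the big group) of a universal group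
is existentially closed. -/
theorem exClosed_of_univ {G : Type} [Group G] (hG : Univ G) (H : Subgroup G)
    (hH : ∀ (n : ℕ) (E N : Finset (FreeGroup (H ⊕ Fin n))),
      (∃ x : Fin n → G, (∀ w ∈ E, FreeGroup.lift (Sum.elim H.subtype x) w = 1) ∧
        ∀ w ∈ N, FreeGroup.lift (Sum.elim H.subtype x) w ≠ 1) →
      ∃ x : Fin n → H, (∀ w ∈ E, FreeGroup.lift (Sum.elim id x) w = 1) ∧
        ∀ w ∈ N, FreeGroup.lift (Sum.elim id x) w ≠ 1) : IsExClosed H := by
  classical
  intro n E N ⟨K, iK, i, x, hi, hE, hN⟩
  apply hH n E N
  -- amalgam of `G` and `K` over `H`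
  obtain ⟨P, iP, jG, jK, hjG, hjK, hjj⟩ := exists_amalgam H.subtype_injective hi
  -- the finitely many coefficients
  have hfin : ∃ C : Finset H, ∀ w ∈ E ∪ N, w ∈ Subgroup.closure
      (FreeGroup.of '' (Sum.inl '' (C : Set H) ∪ Set.range Sum.inr : Set (H ⊕ Fin n))) := by
    have h1 : ∀ w : FreeGroup (H ⊕ Fin n), ∃ C : Finset H, w ∈ Subgroup.closure
        (FreeGroup.of '' (Sum.inl '' (C : Set H) ∪ Set.range Sum.inr : Set (H ⊕ Fin n))) := by
      intro w
      induction w using FreeGroup.induction_on with
      | C1 => exact ⟨∅, one_mem _⟩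
      | of z =>
        rcases z with h | k
        · exact ⟨{h}, Subgroup.subset_closure ⟨Sum.inl h, Or.inl ⟨h, by simp, rfl⟩, rfl⟩⟩
        · exact ⟨∅, Subgroup.subset_closure ⟨Sum.inr k, Or.inr ⟨k, rfl⟩, rfl⟩⟩
      | inv_of z hz =>
        obtain ⟨C, hC⟩ := hz
        exact ⟨C, inv_mem hC⟩
      | mul u v hu hv =>
        obtain ⟨C, hC⟩ := hu
        obtain ⟨D, hD⟩ := hv
        refine ⟨C ∪ D, mul_mem (Subgroup.closure_mono (Set.image_mono ?_) hC)
          (Subgroup.closure_mono (Set.image_mono ?_) hD)⟩
        · apply Set.union_subset_union_left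
          apply Set.image_mono
          simp
        · apply Set.union_subset_union_left
          apply Set.image_mono
          simp
    choose C hC using h1
    refine ⟨(E ∪ N).biUnion C, fun w hw => Subgroup.closure_mono (Set.image_mono ?_) (hC w)⟩
    apply Set.union_subset_union_left
    apply Set.image_mono
    intro h hh
    simp only [Finset.coe_biUnion, Set.mem_iUnion]
    exact ⟨w, hw, hh⟩
  obtain ⟨C, hC⟩ := hfin
  let e := C.equivFin
  let a : Fin C.card → G := fun j => ((e.symm j : H) : G)
  let M : Subgroup P := Subgroup.closure (Set.range (fun j => jG (a j)) ∪ Set.range (fun j => jK (x j)))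
  have hMc : Countable M := by
    have : (Set.range (fun j => jG (a j)) ∪ Set.range (fun j => jK (x j))).Countable :=
      ((Set.finite_range _).union (Set.finite_range _)).countable
    exact countable_closure this
  have hMa : ∀ j, jG (a j) ∈ M := fun j => Subgroup.subset_closure (Or.inl ⟨j, rfl⟩)
  have hMx : ∀ j, jK (x j) ∈ M := fun j => Subgroup.subset_closure (Or.inr ⟨j, rfl⟩)
  obtain ⟨f, hf, hfa⟩ := hG _ a P jG hjG M hMc hMa
  let y : Fin n → G := fun j => f ⟨jK (x j), hMx j⟩
  have key : ∀ w ∈ Subgroup.closure
      (FreeGroup.of '' (Sum.inl '' (C : Set H) ∪ Set.range Sum.inr : Set (H ⊕ Fin n))),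
      ∃ m : M, (m : P) = jK (FreeGroup.lift (Sum.elim i x) w) ∧
      f m = FreeGroup.lift (Sum.elim H.subtype y) w := by
    intro w hw
    induction hw using Subgroup.closure_induction with
    | mem w hw =>
      obtain ⟨z, hz, rfl⟩ := hw
      rcases hz with ⟨h, hh, rfl⟩ | ⟨k, rfl⟩
      · refine ⟨⟨jG (a (e ⟨h, hh⟩)), hMa _⟩, ?_, ?_⟩
        · show jG (a (e ⟨h, hh⟩)) = _
          have e1 : a (e ⟨h, hh⟩) = H.subtype h := by simp [a]
          rw [e1, hjj]
          simp
        · rw [hfa]
          simp [a]
      · refine ⟨⟨jK (x k), hMx k⟩, ?_, ?_⟩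
        · simp
        · simp [y]
    | one => exact ⟨1, by simp, by simp⟩
    | mul u v _ _ hu hv =>
      obtain ⟨m, hm1, hm2⟩ := hu
      obtain ⟨m', hm1', hm2'⟩ := hv
      exact ⟨m * m', by simp [hm1, hm1'], by simp [hm2, hm2']⟩
    | inv u _ hu =>
      obtain ⟨m, hm1, hm2⟩ := hu
      exact ⟨m⁻¹, by simp [hm1], by simp [hm2]⟩
  have key2 : ∀ w ∈ E ∪ N, FreeGroup.lift (Sum.elim i x) w = 1 ↔
      FreeGroup.lift (Sum.elim H.subtype y) w = 1 := by
    intro w hw
    obtain ⟨m, h1, h2⟩ := key w (hC w hw)
    rw [← h2]
    constructor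
    · intro h
      rw [h, map_one] at h1
      have : m = 1 := Subtype.ext h1
      rw [this, map_one]
    · intro h
      have : m = 1 := hf (by rw [h, map_one])
      rw [this] at h1
      apply hjK
      rw [map_one, ← h1]
      rfl
  refine ⟨y, fun w hw => ?_, fun w hw => ?_⟩
  · exact (key2 w (Finset.mem_union_left _ hw)).1 (hE w hw)
  · exact fun h => hN w hw ((key2 w (Finset.mem_union_right _ hw)).2 h)

end Pool.Agent.R283.GV
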