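import Pool.Agent.R283.GV.FO
import Pool.Agent.R872.KEC.Chain

/-! # The universal group and the invariant -/

set_option autoImplicit false

namespace Pool.Agent.R283.GV

open FirstOrder Language Function

theorem exists_univ : ∃ (G : Type) (_ : Group G), Infinite G ∧ Univ G := by
  classical
  obtain ⟨ι, G, iG, hι, hG, -, hec⟩ :=
    Pool.Agent.R872.KEC.exists_group Cardinal.aleph0.{0} Cardinal.isRegular_aleph0
  refine ⟨G, iG, ?_, ?_⟩
  · rw [Cardinal.infinite_iff, hG]
    exact (Cardinal.cantor _).le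
  · intro p a K iK i hi N hNc hN
    obtain ⟨H, iH, r, hr, hC, hsol⟩ := hec (Set.range a)
      ((Set.finite_range a).lt_aleph0)
    choose c hc using fun j => hC ⟨j, rfl⟩
    have hιc : Countable ι := Cardinal.mk_le_aleph0_iff.1 hι.le
    have hιi : Infinite ι := Cardinal.infinite_iff.2 hι.ge
    obtain ⟨s, hs⟩ : ∃ s : ι → N, Surjective s := by
      obtain ⟨g, hg⟩ := exists_surjective_nat N
      obtain ⟨e⟩ : Nonempty (ι ≃ ℕ) := by
        have := Cardinal.eq.1 (hι.trans Cardinal.mk_nat.symm)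
        exact this
      exact ⟨g ∘ e, hg.comp e.surjective⟩
    choose t ht using hs
    let V : Pool.Agent.R872.KEC.Over H := ⟨K, iK, i.comp r, hi.comp hr⟩
    let vr : N → FreeGroup (H ⊕ ι) := fun m => FreeGroup.of (Sum.inr (t m))
    let E : Set (FreeGroup (H ⊕ ι)) :=
      Set.range (fun q : N × N => vr q.1 * vr q.2 * (vr (q.1 * q.2))⁻¹) ∪
        Set.range (fun j : Fin p => FreeGroup.of (Sum.inl (c j)) * (vr ⟨i (a j), hN j⟩)⁻¹)
    let M : Set (FreeGroup (H ⊕ ι)) := vr '' {m | m ≠ 1}
    have hE : Cardinal.mk E ≤ Cardinal.mk ι := by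
      rw [hι]
      exact ((Set.countable_range _).union (Set.countable_range _)).le_aleph0
    have hM : Cardinal.mk M ≤ Cardinal.mk ι := by
      rw [hι]
      exact ((Set.to_countable _).image _).le_aleph0
    let x : ι → V.K := fun v => ((s v : N) : K)
    have hx : Pool.Agent.R872.KEC.Sol V.i E M x := by
      constructor
      · rintro w (⟨q, rfl⟩ | ⟨j, rfl⟩)
        · simp [vr, x, ht]
        · have h1 : V.i (c j) = i (a j) := congrArg i (hc j)
          simp [vr, x, ht, h1]
      · rintro w ⟨m, hm, rfl⟩ h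
        apply hm
        simp only [vr, FreeGroup.lift_apply_of, Sum.elim_inr, x, ht] at h
        exact Subtype.ext h
    obtain ⟨y, hy1, hy2⟩ := hsol E M hE hM ⟨V, x, hx⟩
    have hmul : ∀ m m' : N, y (t (m * m')) = y (t m) * y (t m') := by
      intro m m'
      have := hy1 _ (Or.inl ⟨(m, m'), rfl⟩)
      simp only [vr, map_mul, map_inv, FreeGroup.lift_apply_of, Sum.elim_inr] at this
      exact (mul_inv_eq_one.1 this).symm
    let f : N →* G := MonoidHom.mk' (fun m => y (t m)) hmul
    refine ⟨f, ?_, ?_⟩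
    · rw [injective_iff_map_eq_one]
      intro m hm
      by_contra hne
      apply hy2 _ ⟨m, hne, rfl⟩
      simp only [vr, FreeGroup.lift_apply_of, Sum.elim_inr]
      exact hm
    · intro j
      have := hy1 _ (Or.inr ⟨j, rfl⟩)
      simp only [vr, map_mul, map_inv, FreeGroup.lift_apply_of, Sum.elim_inr, Sum.elim_inl] at this
      rw [hc] at this
      exact (mul_inv_eq_one.1 this).symm

/-- the invariant of a pair of elements -/
def Inv {G : Type} [Group G] (a t : G) : Set ℕ :=
  {n | Commute a (t ^ (n + 1) * a * (t ^ (n + 1))⁻¹)}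

theorem inv_map {G K : Type} [Group G] [Group K] (f : G →* K) (hf : Injective f) (a t : G) :
    Inv (f a) (f t) = Inv a t := by
  ext n
  simp only [Inv, Set.mem_ofPred_eq, ← map_pow, ← map_inv, ← map_mul]
  rw [commute_iff_eq, commute_iff_eq, ← map_mul, ← map_mul, hf.eq_iff]

/-- the model of the invariant -/
noncomputable def mA (S : Set ℕ) : ℕ → Equiv.Perm ℤ :=
  open Classical in fun m => if m ∈ S then 1 else Equiv.swap 0 ((m : ℤ) + 1)

/-- the shift -/
def mT : ℕ → Equiv.Perm ℤ := fun _ => Equiv.addRight 1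

theorem shift_pow (n : ℕ) (z : ℤ) : ((Equiv.addRight (1:ℤ)) ^ n : Equiv.Perm ℤ) z = z + n := by
  induction n with
  | zero => simp
  | succ n ih =>
    rw [pow_succ', Equiv.Perm.mul_apply, ih]
    simp [Equiv.addRight]
    ring

theorem inv_model (S : Set ℕ) : Inv (mA S) mT = S := by
  classical
  ext n
  have h1 : ∀ m, (mT ^ (n + 1) * mA S * (mT ^ (n + 1))⁻¹) m =
      if m ∈ S then 1 else Equiv.swap ((n : ℤ) + 1) ((m : ℤ) + 1 + (n + 1)) := by
    intro m
    show (mT m) ^ (n + 1) * mA S m * ((mT m) ^ (n + 1))⁻¹ = _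
    unfold mA mT
    split_ifs with h
    · group
    · rw [← Equiv.swap_apply_apply, shift_pow, shift_pow]
      push_cast
      rw [zero_add]
  have h2 : n ∈ Inv (mA S) mT ↔ ∀ m, Commute (mA S m)
      ((mT ^ (n + 1) * mA S * (mT ^ (n + 1))⁻¹) m) := by
    simp only [Inv, Set.mem_ofPred_eq, commute_iff_eq, funext_iff]
    rfl
  rw [h2]
  constructor
  · intro h
    by_contra hn
    have h3 := h n
    rw [h1, if_neg hn] at h3
    unfold mA at h3
    rw [if_neg hn, commute_iff_eq] at h3
    have h4 := congrArg (fun σ : Equiv.Perm ℤ => σ 0) h3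
    simp only [Equiv.Perm.mul_apply] at h4
    have e1 : Equiv.swap ((n : ℤ) + 1) ((n : ℤ) + 1 + (n + 1)) 0 = 0 :=
      Equiv.swap_apply_of_ne_of_ne (by omega) (by omega)
    have e2 : Equiv.swap (0 : ℤ) ((n : ℤ) + 1) 0 = (n : ℤ) + 1 := Equiv.swap_apply_left _ _
    have e3 : Equiv.swap ((n : ℤ) + 1) ((n : ℤ) + 1 + (n + 1)) ((n : ℤ) + 1)
        = (n : ℤ) + 1 + (n + 1) := Equiv.swap_apply_left _ _
    rw [e1, e2, e3] at h4
    omega
  · intro hn m
    rw [h1]
    unfold mA
    split_ifs with h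
    · exact Commute.one_left _
    · have hmn : m ≠ n := fun e => h (e ▸ hn)
      rw [commute_iff_eq]
      ext z
      simp only [Equiv.Perm.mul_apply, Equiv.swap_apply_def]
      split_ifs <;> omega

theorem exists_inv {G : Type} [Group G] (hG : Univ G) (S : Set ℕ) : ∃ a t : G, Inv a t = S := by
  let K := G × (ℕ → Equiv.Perm ℤ)
  let i : G →* K := MonoidHom.inl _ _
  have hi : Injective i := fun a b hab => (Prod.ext_iff.1 hab).1
  let u : K := (1, mA S)
  let v : K := (1, mT)
  let N : Subgroup K := Subgroup.closure {u, v}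
  have hNc : Countable N := countable_closure (by simp)
  have hu : u ∈ N := Subgroup.subset_closure (by simp)
  have hv : v ∈ N := Subgroup.subset_closure (by simp)
  obtain ⟨f, hf, -⟩ := hG 0 Fin.elim0 K i hi N hNc (fun j => j.elim0)
  refine ⟨f ⟨u, hu⟩, f ⟨v, hv⟩, ?_⟩
  rw [inv_map f hf, ← inv_map N.subtype N.subtype_injective]
  show Inv u v = S
  have : Inv u v = Inv (mA S) mT := by
    have h1 := inv_map (MonoidHom.inr G (ℕ → Equiv.Perm ℤ))
      (fun a b hab => (Prod.ext_iff.1 hab).2) (mA S) mT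
    exact h1
  rw [this, inv_model]

/-- a countable group realizes only countably many invariants -/
theorem exists_not_inv (H : Type) [Group H] [Countable H] : ∃ S : Set ℕ, ∀ a t : H, Inv a t ≠ S := by
  by_contra hcon
  push Not at hcon
  have h1 : Surjective (fun q : H × H => Inv q.1 q.2) := by
    intro S
    obtain ⟨a, t, h⟩ := hcon S
    exact ⟨(a, t), h⟩
  have h2 : Countable (Set ℕ) := h1.countable
  have h3 := Cardinal.cantor Cardinal.aleph0.{0}
  have h4 : Cardinal.mk (Set ℕ) ≤ Cardinal.aleph0 := Cardinal.mk_le_aleph0_iff.2 h2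
  rw [Cardinal.mk_set, Cardinal.mk_nat] at h4
  exact absurd h3 (not_lt.2 h4)

end Pool.Agent.R283.GV
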