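import Pool.Agent.R283.GV.AP
import Pool.Agent.R283.GV.UG

/-! # The Löwenheim–Skolem argument -/

set_option autoImplicit false

namespace Pool.Agent.R283.GV

open Pool.Agent.H667R2.FG (Ell Op permOp lam rho delta LG EltG tau)
open Pool.Agent.H504R3 (TVN)
open Pool.Agent.H504R3.S
open Pool.Agent.R970.SI
open TopologicalSpace Filter Topology Function

variable {G : Type} [Group G]

omit [Group G] in
theorem separable_supp (K : Set G) (hK : K.Countable) :
    IsSeparable {ξ : Ell G | ∀ g, g ∉ K → ξ g = 0} := by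
  let := Classical.decEq G
  have h1 : IsSeparable (Submodule.span ℂ (delta '' K) : Set (Ell G)) :=
    (hK.image delta).isSeparable.span (R := ℂ)
  refine h1.closure.mono ?_
  intro ξ hξ
  have h2 := lp.hasSum_single (E := fun _ : G => ℂ) (p := 2) (by norm_num) ξ
  refine mem_closure_of_tendsto h2 (Eventually.of_forall fun s => ?_)
  refine Submodule.sum_mem _ fun g _ => ?_
  by_cases hg : g ∈ K
  · have e : (lp.single 2 g (ξ g) : Ell G) = (ξ g) • (delta g : Ell G) := by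
      unfold delta
      rw [← lp.single_smul]
      congr 1
      simp
    rw [e]
    exact Submodule.smul_mem _ _ (Submodule.subset_span ⟨g, hg, rfl⟩)
  · rw [hξ g hg]
    have e : (lp.single 2 g (0 : ℂ) : Ell G) = 0 := by
      ext k
      by_cases hk : k = g
      · subst hk
        simp
      · simp
    rw [e]
    exact Submodule.zero_mem _

/-- `D` is dense in the ball of radius `R` of `L(K)` -/
def DenseIn (K : Subgroup G) (R : ℕ) (D : Set (tvn G).E) : Prop :=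
  (∀ x ∈ D, (tvn G).opNorm x ≤ R) ∧ ∀ x : (tvn G).E, (tvn G).opNorm x ≤ R → Supp K x →
    ∀ ε : ℝ, 0 < ε → ∃ y ∈ D, (tvn G).norm2 (x - y) ≤ ε

theorem exists_dense (K : Subgroup G) (hK : Countable K) (R : ℕ) :
    ∃ D : Set (tvn G).E, D.Countable ∧ DenseIn K R D := by
  let A : Set (tvn G).E := {x | (tvn G).opNorm x ≤ R ∧ Supp K x}
  have hB : IsSeparable (vec '' A) := by
    refine (separable_supp (K : Set G) (Set.countable_coe_iff.1 hK)).mono ?_
    rintro _ ⟨x, hx, rfl⟩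
    exact hx.2
  obtain ⟨t, htB, htc, hcl⟩ := hB.exists_countable_dense_subset
  choose pre hpre using fun b : t => htB b.2
  refine ⟨Set.range pre, ?_, ?_, ?_⟩
  · have := htc.to_subtype
    exact Set.countable_range _
  · rintro _ ⟨b, rfl⟩
    exact (hpre b).1.1
  · intro x hx hs ε hε
    have h1 := hcl ⟨x, ⟨hx, hs⟩, rfl⟩
    rw [Metric.mem_closure_iff] at h1
    obtain ⟨b, hb, hd⟩ := h1 ε hε
    refine ⟨pre ⟨b, hb⟩, ⟨⟨b, hb⟩, rfl⟩, ?_⟩
    rw [norm2_eq, vec_sub, (hpre ⟨b, hb⟩).2, ← dist_eq_norm]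
    exact hd.le

/-- witnesses for `L(G)` -/
def VNStep (K K' : Subgroup G) : Prop := ∀ R : ℕ, ∃ D : Set (tvn G).E, DenseIn K R D ∧
  ∀ (n d : ℕ) (ψ : Fm (n + 1)), ψ ∈ SQ d (n + 1) → ∀ (r : ℕ) (x : Fin n → (tvn G).E),
    (∀ i, x i ∈ D) → ∀ (q : ℚ) (m : ℕ),
      (∃ z : (tvn G).E, (tvn G).opNorm z ≤ r ∧
        |ψ.val (str (tvn G)) (Fin.cons z x : Fin (n + 1) → (tvn G).E) - q| < 1 / ((m : ℝ) + 1)) →
      ∃ z : (tvn G).E, (tvn G).opNorm z ≤ r ∧ Supp K' z ∧
        |ψ.val (str (tvn G)) (Fin.cons z x : Fin (n + 1) → (tvn G).E) - q| < 1 / ((m : ℝ) + 1)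

/-- witnesses for systems of equations -/
def ECStep (K K' : Subgroup G) : Prop := ∀ (n : ℕ) (E N : Finset (FreeGroup (K ⊕ Fin n))),
  (∃ x : Fin n → G, (∀ w ∈ E, FreeGroup.lift (Sum.elim K.subtype x) w = 1) ∧
    ∀ w ∈ N, FreeGroup.lift (Sum.elim K.subtype x) w ≠ 1) →
  ∃ x : Fin n → G, (∀ i, x i ∈ K') ∧ (∀ w ∈ E, FreeGroup.lift (Sum.elim K.subtype x) w = 1) ∧
    ∀ w ∈ N, FreeGroup.lift (Sum.elim K.subtype x) w ≠ 1

theorem countable_vec (z : (tvn G).E) : {g | vec z g ≠ 0}.Countable := by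
  have h := (hasSum_sq (vec z)).summable.countable_support
  refine h.mono ?_
  intro g hg
  simp only [Function.mem_support]
  have : ‖vec z g‖ ≠ 0 := norm_ne_zero_iff.2 hg
  positivity

theorem step [Infinite G] (K : Subgroup G) (hK : Countable K) : ∃ K' : Subgroup G,
    K ≤ K' ∧ Countable K' ∧ ElemSub K' ∧ VNStep K K' ∧ ECStep K K' := by
  classical
  choose D hDc hD using fun R : ℕ => exists_dense K hK R
  have hDc' : ∀ R, Countable (D R) := fun R => (hDc R).to_subtype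
  have hSc : ∀ d n, Countable (SQ d n) := fun d n => (SQ_countable d n).to_subtype
  let J : Type := Σ n : ℕ, Σ d : ℕ, (SQ d (n + 1)) × (Σ R : ℕ, Fin n → D R) × ℕ × ℚ × ℕ
  let P : J → (tvn G).E → Prop := fun j z => (tvn G).opNorm z ≤ j.2.2.2.2.1 ∧
    |j.2.2.1.1.val (str (tvn G)) (Fin.cons z (fun i => (j.2.2.2.1.2 i).1) :
      Fin (j.1 + 1) → (tvn G).E) - j.2.2.2.2.2.1| < 1 / ((j.2.2.2.2.2.2 : ℝ) + 1)
  have hJ : ∀ j : J, ∃ z, (∃ z', P j z') → P j z := by
    intro j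
    by_cases h : ∃ z', P j z'
    · obtain ⟨z', hz'⟩ := h
      exact ⟨z', fun _ => hz'⟩
    · exact ⟨0, fun h' => absurd h' h⟩
  choose zz hzz using hJ
  let J' : Type := Σ n : ℕ, Finset (FreeGroup (K ⊕ Fin n)) × Finset (FreeGroup (K ⊕ Fin n))
  let P' : ∀ j : J', (Fin j.1 → G) → Prop := fun j x =>
    (∀ w ∈ j.2.1, FreeGroup.lift (Sum.elim K.subtype x) w = 1) ∧
    ∀ w ∈ j.2.2, FreeGroup.lift (Sum.elim K.subtype x) w ≠ 1
  have hJ' : ∀ j : J', ∃ x, (∃ x', P' j x') → P' j x := by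
    intro j
    by_cases h : ∃ x', P' j x'
    · obtain ⟨x', hx'⟩ := h
      exact ⟨x', fun _ => hx'⟩
    · exact ⟨fun _ => 1, fun h' => absurd h' h⟩
  choose xx hxx using hJ'
  have hJc : Countable J := inferInstance
  have hFGc : ∀ n : ℕ, Countable (FreeGroup (K ⊕ Fin n)) := fun n => inferInstance
  have hJc' : Countable J' := inferInstance
  obtain ⟨K', hsK', hK'c, hK'e⟩ := exists_elem
    ((K : Set G) ∪ (⋃ j, {g | vec (zz j) g ≠ 0}) ∪ ⋃ j, Set.range (xx j))
    (((Set.countable_coe_iff.1 hK).union (Set.countable_iUnion fun j => countable_vec _)).union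
      (Set.countable_iUnion fun j => Set.countable_range _))
  refine ⟨K', fun g hg => hsK' (Or.inl (Or.inl hg)), hK'c, hK'e, ?_, ?_⟩
  · intro R
    refine ⟨D R, hD R, ?_⟩
    intro n d ψ hψ r x hx q m hex
    let j : J := ⟨n, d, ⟨ψ, hψ⟩, ⟨R, fun i => ⟨x i, hx i⟩⟩, r, q, m⟩
    have h1 := hzz j hex
    refine ⟨zz j, h1.1, ?_, h1.2⟩
    intro g hg
    by_contra hne
    exact hg (hsK' (Or.inl (Or.inr (Set.mem_iUnion.2 ⟨j, hne⟩))))
  · intro n E N hex
    let j : J' := ⟨n, E, N⟩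
    have h1 := hxx j hex
    exact ⟨xx j, fun i => hsK' (Or.inr (Set.mem_iUnion.2 ⟨j, i, rfl⟩)), h1.1, h1.2⟩

/-- restrictions to an increasing union converge -/
theorem tendsto_cond (K : ℕ → Subgroup G) (hK : Monotone K) (H : Subgroup G)
    (hH : ∀ g, g ∈ H ↔ ∃ j, g ∈ K j) (ξ : Ell G) (hξ : ∀ g, g ∉ H → ξ g = 0) (η : ℕ → Ell G)
    (hη : ∀ j g, η j g = open Classical in if g ∈ K j then ξ g else 0) :
    Tendsto (fun j => ‖ξ - η j‖) atTop (𝓝 0) := by
  classical
  have h1 : Tendsto (fun j => ‖ξ - η j‖ ^ 2) atTop (𝓝 0) := by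
    have e : ∀ j, ‖ξ - η j‖ ^ 2 = ∑' g, ‖ξ g - η j g‖ ^ 2 := fun j =>
      (hasSum_sq (ξ - η j)).tsum_eq.symm
    simp only [e]
    have h2 : (0:ℝ) = ∑' _g : G, (0:ℝ) := by simp
    rw [h2]
    refine tendsto_tsum_of_dominated_convergence (bound := fun g => ‖ξ g‖ ^ 2)
      (hasSum_sq ξ).summable (fun g => ?_) (Eventually.of_forall fun j g => ?_)
    · refine tendsto_const_nhds.congr' ?_
      by_cases hg : g ∈ H
      · obtain ⟨j0, hj0⟩ := (hH g).1 hg
        filter_upwards [eventually_ge_atTop j0] with j hj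
        rw [hη, if_pos (hK hj hj0)]
        simp
      · refine Eventually.of_forall fun j => ?_
        have : g ∉ K j := fun h => hg ((hH g).2 ⟨j, h⟩)
        simp only
        rw [hη, if_neg this, hξ g hg]
        simp
    · rw [hη]
      split_ifs
      · simp
      · simp
  have h3 := (Real.continuous_sqrt.tendsto 0).comp h1
  rw [Real.sqrt_zero] at h3
  refine h3.congr fun j => ?_
  simp only [Function.comp_apply]
  exact Real.sqrt_sq (norm_nonneg _)

theorem tv_of_chain (K : ℕ → Subgroup G) (hK : Monotone K) (H : Subgroup G)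
    (hH : ∀ g, g ∈ H ↔ ∃ j, g ∈ K j) (hs : ∀ j, VNStep (K j) (K (j + 1))) :
    TVprop (iotaT H) := by
  intro n φ x r z ε hε
  set X : Fin n → (tvn G).E := fun i => iotaT H (x i) with hX
  obtain ⟨R0, hR0, hXR0⟩ := exists_bound X
  obtain ⟨R, hR⟩ := exists_nat_ge R0
  have hXR : ∀ i, (tvn G).opNorm (X i) ≤ (R : ℝ) := fun i => (hXR0 i).trans hR
  have hRR : (0:ℝ) ≤ max (R : ℝ) r := by positivity
  obtain ⟨d, ψ, hψ, happ⟩ := approx_fm (tvn G) φ (max (R : ℝ) r) hRR (ε / 6) (by positivity)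
  obtain ⟨δ, hδ, huc⟩ := (good ψ).2 (max (R : ℝ) r) hRR (ε / 6) (by positivity)
  -- approximation of the parameters
  have hA : ∀ i, ∀ᶠ j in atTop, ∃ x' : (tvn G).E, (tvn G).opNorm x' ≤ R ∧ Supp (K j) x' ∧
      (tvn G).norm2 (X i - x') ≤ δ / 2 := by
    intro i
    choose x' hx1 hx2 using fun j => exists_cond (K j) (X i)
    have h1 := tendsto_cond K hK H hH (vec (X i)) (supp_iotaT H (x i)) (fun j => vec (x' j)) hx2
    have h2 := h1.eventually (ge_mem_nhds (show (0:ℝ) < δ / 2 by positivity))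
    filter_upwards [h2] with j hj
    refine ⟨x' j, (hx1 j).trans (hXR i), ?_, ?_⟩
    · intro g hg
      rw [hx2, if_neg hg]
    · rw [norm2_eq, vec_sub]
      exact hj
  obtain ⟨j, hj⟩ := (eventually_all.2 hA).exists
  choose x1 hx1R hx1S hx1n using hj
  obtain ⟨D, hD, hwit⟩ := hs j R
  choose x2 hx2D hx2n using fun i => hD.2 (x1 i) (hx1R i) (hx1S i) (δ / 2) (by positivity)
  have hx2R : ∀ i, (tvn G).opNorm (x2 i) ≤ (R : ℝ) := fun i => hD.1 _ (hx2D i)
  have hXx2 : ∀ i, (tvn G).norm2 (X i - x2 i) ≤ δ := by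
    intro i
    have := norm2_tri (tvn G) (X i) (x1 i) (x2 i)
    linarith [hx1n i, hx2n i]
  -- the witness
  obtain ⟨m, hm⟩ := exists_nat_one_div_lt (show (0:ℝ) < ε / 6 by positivity)
  obtain ⟨q, hq1, hq2⟩ := exists_rat_btwn (show
    ψ.val (str (tvn G)) (Fin.cons z.1 x2 : Fin (n + 1) → (tvn G).E) - 1 / ((m : ℝ) + 1) <
      ψ.val (str (tvn G)) (Fin.cons z.1 x2 : Fin (n + 1) → (tvn G).E) by
        have : (0:ℝ) < 1 / ((m : ℝ) + 1) := by positivity
        linarith)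
  obtain ⟨z', hz'r, hz'S, hz'q⟩ := hwit n d ψ hψ r x2 hx2D q m ⟨z.1, z.2, by
    rw [abs_lt]
    constructor <;> linarith⟩
  have hz'H : Supp H z' := fun g hg => hz'S g (fun h => hg ((hH g).2 ⟨j + 1, h⟩))
  obtain ⟨y, hy⟩ := exists_pre H hz'H
  have hyr : (tvn H).opNorm y ≤ r := by
    rw [← op_iotaT, hy]
    exact hz'r
  refine ⟨⟨y, hyr⟩, ?_⟩
  show |φ.val (str (tvn G)) (Fin.cons z.1 X : Fin (n + 1) → (tvn G).E) -
    φ.val (str (tvn G)) (Fin.cons (iotaT H y) X : Fin (n + 1) → (tvn G).E)| ≤ ε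
  rw [hy]
  have b1 := happ (Fin.cons z.1 X : Fin (n + 1) → (tvn G).E) (cons_op hXR z)
  have b2 := happ (Fin.cons z' X : Fin (n + 1) → (tvn G).E) (cons_op (y := ⟨z', hz'r⟩) hXR)
  have c : ∀ w : (str (tvn G)).Ball r, |ψ.val (str (tvn G)) (Fin.cons w.1 X : Fin (n + 1) → (tvn G).E) -
      ψ.val (str (tvn G)) (Fin.cons w.1 x2 : Fin (n + 1) → (tvn G).E)| ≤ ε / 6 := by
    intro w
    refine huc (tvn G) _ _ (cons_op hXR w) (cons_op hx2R w) ?_
    intro i
    refine Fin.cases ?_ (fun i => ?_) i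
    · exact (norm2_self (tvn G) w.1).le.trans hδ.le
    · exact hXx2 i
  have c1 := c z
  have c2 := c ⟨z', hz'r⟩
  have b1' := abs_le.1 b1
  have b2' := abs_le.1 b2
  have c1' := abs_le.1 c1
  have c2' := abs_le.1 c2
  have hq' := abs_lt.1 hz'q
  simp only at c2'
  rw [abs_le]
  constructor <;> linarith

theorem lift_subtype_map {K H : Subgroup G} (h : K ≤ H) {n : ℕ} (x : Fin n → G)
    (w : FreeGroup (K ⊕ Fin n)) :
    FreeGroup.lift (Sum.elim H.subtype x)
      (FreeGroup.map (Sum.map (Subgroup.inclusion h) id) w) =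
    FreeGroup.lift (Sum.elim K.subtype x) w := by
  have e : (FreeGroup.lift (Sum.elim H.subtype x)).comp
      (FreeGroup.map (Sum.map (Subgroup.inclusion h) id)) =
      FreeGroup.lift (Sum.elim K.subtype x) := by
    ext a
    rcases a with a | a <;> simp
  exact DFunLike.congr_fun e w

theorem ec_of_chain (K : ℕ → Subgroup G) (hK : Monotone K) (H : Subgroup G)
    (hH : ∀ g, g ∈ H ↔ ∃ j, g ∈ K j) (hs : ∀ j, ECStep (K j) (K (j + 1)))
    (n : ℕ) (E N : Finset (FreeGroup (H ⊕ Fin n)))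
    (hsol : ∃ x : Fin n → G, (∀ w ∈ E, FreeGroup.lift (Sum.elim H.subtype x) w = 1) ∧
        ∀ w ∈ N, FreeGroup.lift (Sum.elim H.subtype x) w ≠ 1) :
      ∃ x : Fin n → H, (∀ w ∈ E, FreeGroup.lift (Sum.elim id x) w = 1) ∧
        ∀ w ∈ N, FreeGroup.lift (Sum.elim id x) w ≠ 1 := by
  classical
  have hle : ∀ j, K j ≤ H := fun j g hg => (hH g).2 ⟨j, hg⟩
  let mp : ∀ j, FreeGroup (K j ⊕ Fin n) →* FreeGroup (H ⊕ Fin n) := fun j =>
    FreeGroup.map (Sum.map (Subgroup.inclusion (hle j)) id)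
  have hmp : ∀ w : FreeGroup (H ⊕ Fin n), ∀ᶠ j in atTop, w ∈ (mp j).range := by
    intro w
    induction w using FreeGroup.induction_on with
    | C1 => exact Eventually.of_forall fun j => one_mem _
    | of z =>
      rcases z with h | k
      · obtain ⟨j0, hj0⟩ := (hH h).1 h.2
        filter_upwards [eventually_ge_atTop j0] with j hj
        exact ⟨FreeGroup.of (Sum.inl ⟨(h : G), hK hj hj0⟩), by simp [mp]; rfl⟩
      · exact Eventually.of_forall fun j => ⟨FreeGroup.of (Sum.inr k), by simp [mp]⟩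
    | inv_of z hz =>
      filter_upwards [hz] with j hj
      exact inv_mem hj
    | mul u v hu hv =>
      filter_upwards [hu, hv] with j h1 h2
      exact mul_mem h1 h2
  obtain ⟨j, hj⟩ : ∃ j, ∀ w ∈ E ∪ N, w ∈ (mp j).range :=
    ((Finset.eventually_all (E ∪ N)).2 fun w _ => hmp w).exists
  choose! pre hpre using hj
  obtain ⟨x, hxE, hxN⟩ := hsol
  obtain ⟨y, hyK, hyE, hyN⟩ := hs j n (E.image pre) (N.image pre) ⟨x, by
    intro w hw
    obtain ⟨v, hv, rfl⟩ := Finset.mem_image.1 hw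
    rw [← lift_subtype_map (hle j) x]
    show FreeGroup.lift (Sum.elim H.subtype x) (mp j (pre v)) = 1
    rw [hpre v (Finset.mem_union_left _ hv)]
    exact hxE v hv, by
    intro w hw
    obtain ⟨v, hv, rfl⟩ := Finset.mem_image.1 hw
    rw [← lift_subtype_map (hle j) x]
    show FreeGroup.lift (Sum.elim H.subtype x) (mp j (pre v)) ≠ 1
    rw [hpre v (Finset.mem_union_right _ hv)]
    exact hxN v hv⟩
  let y' : Fin n → H := fun i => ⟨y i, (hle (j + 1)) (hyK i)⟩
  have key : ∀ w : FreeGroup (H ⊕ Fin n),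
      ((FreeGroup.lift (Sum.elim id y') w : H) : G) = FreeGroup.lift (Sum.elim H.subtype y) w := by
    intro w
    have e : H.subtype.comp (FreeGroup.lift (Sum.elim id y')) =
        FreeGroup.lift (Sum.elim H.subtype y) := by
      ext a
      rcases a with a | a <;> simp [y']
    exact DFunLike.congr_fun e w
  refine ⟨y', fun w hw => ?_, fun w hw h => ?_⟩
  · apply Subtype.ext
    rw [key, ← hpre w (Finset.mem_union_left _ hw)]
    exact (lift_subtype_map (hle j) y (pre w)).trans (hyE _ (Finset.mem_image_of_mem _ hw))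
  · have h1 := congrArg (Subtype.val) h
    rw [key, ← hpre w (Finset.mem_union_right _ hw)] at h1
    exact hyN _ (Finset.mem_image_of_mem _ hw) ((lift_subtype_map (hle j) y (pre w)).symm.trans h1)

/-- the Löwenheim–Skolem theorem -/
theorem exists_ls [Infinite G] (hG : Univ G) (X : Set G) (hX : X.Countable) :
    ∃ H : Subgroup G, X ⊆ H ∧ Countable H ∧ ElemSub H ∧ IsExClosed H ∧
      (groupVN H).ElemEq (groupVN G) := by
  choose F hF1 hF2 hF3 hF4 hF5 using fun K : {K : Subgroup G // Countable K} => step K.1 K.2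
  let c : ℕ → {K : Subgroup G // Countable K} := fun j =>
    Nat.rec ⟨Subgroup.closure X, countable_closure hX⟩ (fun _ K => ⟨F K, hF2 K⟩) j
  let K : ℕ → Subgroup G := fun j => (c j).1
  have hKs : ∀ j, K (j + 1) = F (c j) := fun j => rfl
  have hK : Monotone K := monotone_nat_of_le_succ fun j => hF1 (c j)
  let H : Subgroup G := ⨆ j, K j
  have hH : ∀ g, g ∈ H ↔ ∃ j, g ∈ K j := fun g => Subgroup.mem_iSup_of_directed hK.directed_le
  have hc : ∀ j, Countable (K j) := fun j => (c j).2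
  refine ⟨H, ?_, ?_, ?_, ?_, ?_⟩
  · intro g hg
    exact (hH g).2 ⟨0, Subgroup.subset_closure hg⟩
  · have h1 : (H : Set G) = ⋃ j, (K j : Set G) := by
      ext g
      simp only [SetLike.mem_coe, Set.mem_iUnion]
      exact hH g
    apply Set.countable_coe_iff.2
    show (H : Set G).Countable
    rw [h1]
    exact Set.countable_iUnion fun j => Set.countable_coe_iff.1 (hc j)
  · refine elem_iUnion (fun j => K (j + 1)) (fun a b hab => hK (Nat.succ_le_succ hab))
      (fun j => hF3 (c j)) H (fun g => ?_)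
    rw [hH]
    constructor
    · rintro ⟨j, hj⟩
      exact ⟨j, hK (Nat.le_succ j) hj⟩
    · rintro ⟨j, hj⟩
      exact ⟨j + 1, hj⟩
  · exact exClosed_of_univ hG H fun n E N hsol =>
      ec_of_chain K hK H hH (fun j => hF5 (c j)) n E N hsol
  · exact elemEq_of (tv_of_chain K hK H hH (fun j => hF4 (c j)))

/-- the main theorem -/
theorem main : ∃ (G H : Type) (_ : Group G) (_ : Group H), Countable G ∧ Countable H ∧
    IsInfGeneric G ∧ IsInfGeneric H ∧ IsExClosed G ∧ IsExClosed H ∧ IsEmpty (G ≃* H) ∧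
    (groupL G).ElemEq (groupL H) := by
  simp only [groupL_eq]
  obtain ⟨G, iG, hinf, hG⟩ := exists_univ
  obtain ⟨H0, -, hc0, he0, hec0, heq0⟩ := exists_ls hG ∅ Set.countable_empty
  obtain ⟨S, hS⟩ := exists_not_inv H0
  obtain ⟨a, t, hat⟩ := exists_inv hG S
  obtain ⟨H1, hX1, hc1, he1, hec1, heq1⟩ := exists_ls hG {a, t} (by simp)
  have hgen : ∀ H : Subgroup G, ElemSub H → IsInfGeneric H := fun H he =>
    ⟨G, iG, H.subtype, H.subtype_injective, exSat_of_univ hG, fun n φ x => elemSub_iff he n φ x⟩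
  refine ⟨H0, H1, inferInstance, inferInstance, hc0, hc1, hgen H0 he0, hgen H1 he1, hec0, hec1,
    ⟨fun e => ?_⟩, fun φ => (heq0 φ).trans (heq1 φ).symm⟩
  have ha : a ∈ H1 := hX1 (by simp)
  have ht : t ∈ H1 := hX1 (by simp)
  apply hS (e.symm ⟨a, ha⟩) (e.symm ⟨t, ht⟩)
  have h1 := inv_map (e.symm.toMonoidHom) e.symm.injective (⟨a, ha⟩ : H1) ⟨t, ht⟩
  have h2 := inv_map H1.subtype H1.subtype_injective (⟨a, ha⟩ : H1) ⟨t, ht⟩
  exact h1.trans (h2.symm.trans hat)

end Pool.Agent.R283.GV
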