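import Pool.Agent.R283.GV.VN
import Pool.Agent.R283.GV.Defs
import Pool.Agent.R970.SI.Unif

/-! # Group von Neumann algebras as structures of continuous logic -/

set_option autoImplicit false

namespace Pool.Agent.R283.GV

open Pool.Agent.H667R2.FG (Ell Op permOp lam rho delta LG EltG tau)
open Pool.Agent.H667R2.FG.TL2 (delta_apply norm_delta inner_delta)
open Pool.Agent.H504R3 (TVN)
open Pool.Agent.H504R3.S
open Pool.Agent.R970.SI
open scoped ComplexConjugate InnerProductSpace

/-- The structure `L(G)` of the continuous logic of tracial von Neumann algebras: the elements are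
the elements of the group von Neumann algebra of `G` (the von Neumann algebra on `ℓ²(G)` generated
by the left translations), with the algebraic operations, the operator norm and the canonical
trace `τ(x) = ⟨δ_1, x δ_1⟩ = (x δ_1)(1)`. -/
noncomputable def groupVN (G : Type) [Group G] : Str where
  carrier := {x : Op G // x ∈ LG G}
  one := ⟨1, mem_one (LG G)⟩
  add x y := ⟨x.1 + y.1, mem_add (LG G) x.2 y.2⟩
  mul x y := ⟨x.1 * y.1, mem_mul (LG G) x.2 y.2⟩
  adj x := ⟨star x.1, mem_adj (LG G) x.2⟩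
  scal c x := ⟨c • x.1, mem_scal (LG G) c x.2⟩
  nrm x := ‖x.1‖
  tr x := tau x.1

variable (G : Type) [Group G]

/-- the trace -/
noncomputable def tauL : EltG G →ₗ[ℂ] ℂ where
  toFun x := tau (x : Op G)
  map_add' _ _ := rfl
  map_smul' _ _ := rfl

/-- The tracial von Neumann algebra `L(G)`. -/
noncomputable def tvn : TVN where
  H := Ell G
  N := LG G
  τ := tauL G
  map_one := tau_one
  tracial := Pool.Agent.H667R2.FG.tau_mul_comm
  faithful := by
    intro x hx
    have h1 : tau (star (x : Op G) * (x : Op G)) = 0 := hx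
    rw [Pool.Agent.H667R2.FG.tau_star_mul] at h1
    have h2 : ‖(x : Op G) (delta 1)‖ ^ 2 = 0 := by exact_mod_cast h1
    have h3 : (x : Op G) (delta 1) = 0 := by
      rw [← norm_eq_zero]
      exact pow_eq_zero_iff (two_ne_zero) |>.1 h2
    exact Subtype.ext (Pool.Agent.H667R2.FG.eq_zero_of_delta x h3)
  normal := by
    classical
    refine ⟨fun k => if k = 0 then delta 1 else 0, ?_, ?_⟩
    · apply summable_of_ne_finset_zero (s := {0})
      intro k hk
      have hk' : k ≠ 0 := by simpa using hk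
      simp only [if_neg hk']
      simp
    · intro x
      rw [tsum_eq_single 0]
      · simp only [if_true]
        exact tau_eq_inner _
      · intro k hk
        simp only [if_neg hk]
        simp

theorem str_tvn : str (tvn G) = groupVN G := rfl

theorem translations_eq : translations G = Set.range (lam (G := G)) := by
  ext T
  constructor
  · rintro ⟨g, hg⟩
    refine ⟨g, ?_⟩
    ext f h
    exact (hg f h).symm
  · rintro ⟨g, rfl⟩
    exact ⟨g, fun f h => rfl⟩

theorem vnGen_eq : (vnGen (translations G) : VonNeumannAlgebra (L2 G)) = LG G := by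
  rw [translations_eq]
  rfl

/-- the two descriptions of `L(G)` agree -/
theorem groupL_eq : groupL G = groupVN G := by
  have h1 : groupL G = vnStr (H := Ell G) (LG G) (fun k => if k = 0 then deltaOne G else 0) := by
    unfold groupL
    rw [vnGen_eq]
    rfl
  rw [h1]
  unfold vnStr groupVN
  congr 1
  funext x
  rw [tsum_eq_single 0]
  · simp only [if_true]
    rw [tau_eq_inner]
    unfold delta deltaOne
    congr
  · intro k hk
    simp only [if_neg hk]
    exact inner_zero_left _

variable {G}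

/-- the operator of an element -/
noncomputable def toOp (x : (tvn G).E) : Op G := Subtype.val (p := fun y : Op G => y ∈ LG G) x

/-- the vector of an element -/
noncomputable def vec (x : (tvn G).E) : Ell G := toOp x (delta 1)

theorem norm2_eq (x : (tvn G).E) : (tvn G).norm2 x = ‖vec x‖ := by
  have h : (tvn G).norm2 x = Real.sqrt (tau (star (toOp x) * (toOp x))).re := rfl
  rw [h, Pool.Agent.H667R2.FG.tau_star_mul, Complex.ofReal_re, Real.sqrt_sq (norm_nonneg _)]
  rfl

theorem vec_sub (x y : (tvn G).E) : vec (x - y) = vec x - vec y := rfl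

/-- `x` is supported on `K` -/
def Supp (K : Subgroup G) (x : (tvn G).E) : Prop := ∀ g, g ∉ K → vec x g = 0

/-- the embedding of `L(H)` in `L(G)` -/
noncomputable def iotaT (H : Subgroup G) : (tvn H).E →⋆ₐ[ℂ] (tvn G).E := iotaHom H

theorem tau_iotaT (H : Subgroup G) (x : (tvn H).E) : (tvn G).τ (iotaT H x) = (tvn H).τ x :=
  tau_iota (K := H) x

theorem op_iotaT (H : Subgroup G) (x : (tvn H).E) :
    (tvn G).opNorm (iotaT H x) = (tvn H).opNorm x := norm_iota (K := H) x

theorem supp_iotaT (H : Subgroup G) (x : (tvn H).E) : Supp H (iotaT H x) :=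
  fun g hg => iota_supp (K := H) x g hg

theorem exists_pre (H : Subgroup G) {z : (tvn G).E} (hz : Supp H z) :
    ∃ y : (tvn H).E, iotaT H y = z := ⟨cmp H z, iota_cmp_of (K := H) hz⟩

theorem exists_cond (K : Subgroup G) (x : (tvn G).E) : ∃ x' : (tvn G).E,
    (tvn G).opNorm x' ≤ (tvn G).opNorm x ∧ ∀ g, vec x' g = open Classical in if g ∈ K then vec x g else 0 := by
  classical
  refine ⟨iota K (cmp K x), ?_, ?_⟩
  · exact (norm_iota_le (K := K) _).trans (norm_cmp_le (K := K) x)
  · intro g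
    exact iota_cmp_delta (K := K) x g

theorem tval_hom {M N : TVN} (α : N.E →⋆ₐ[ℂ] M.E) {U : Type} (x : U → N.E) : ∀ t : Tm U,
    tval M (fun i => α (x i)) t = α (tval N x t)
  | .var v => rfl
  | .one => (map_one α).symm
  | .add s t => by
    show tval M _ s + tval M _ t = α (tval N x s + tval N x t)
    rw [tval_hom α x s, tval_hom α x t, map_add]
  | .mul s t => by
    show tval M _ s * tval M _ t = α (tval N x s * tval N x t)
    rw [tval_hom α x s, tval_hom α x t, map_mul]
  | .adj s => by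
    show star (tval M _ s) = α (star (tval N x s))
    rw [tval_hom α x s, map_star]
  | .scal c s => by
    show c • tval M _ s = α (c • tval N x s)
    rw [tval_hom α x s, map_smul]

lemma exists_bound {n : ℕ} {T : TVN} (a : Fin n → T.E) : ∃ R : ℝ, 0 ≤ R ∧ ∀ i, T.opNorm (a i) ≤ R := by
  refine ⟨∑ i, T.opNorm (a i), Finset.sum_nonneg fun i _ => op_nonneg T _, fun i => ?_⟩
  exact Finset.single_le_sum (f := fun i => T.opNorm (a i)) (fun i _ => op_nonneg T _) (Finset.mem_univ i)

lemma bdd_of {n : ℕ} (φ : Fm (n + 1)) (r : ℕ) (M : TVN) (x : Fin n → M.E) : ∃ C : ℝ,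
    ∀ y : (str M).Ball r, |φ.val (str M) (Fin.cons y.1 x)| ≤ C := by
  obtain ⟨R, hR, hx⟩ := exists_bound x
  obtain ⟨C, hC⟩ := (good φ).1 (max R r) (by positivity)
  exact ⟨C, fun y => hC M _ (cons_op hx y)⟩

/-- the Tarski–Vaught property of an embedding -/
def TVprop {M N : TVN} (α : N.E →⋆ₐ[ℂ] M.E) : Prop := ∀ (n : ℕ) (φ : Fm (n + 1)) (x : Fin n → N.E)
  (r : ℕ) (z : (str M).Ball r) (ε : ℝ), 0 < ε → ∃ y : (str N).Ball r,
    |φ.val (str M) (Fin.cons z.1 (fun i => α (x i)) : Fin (n + 1) → M.E) -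
      φ.val (str M) (Fin.cons (α y.1) (fun i => α (x i)) : Fin (n + 1) → M.E)| ≤ ε

theorem cons_fun {M N : TVN} {n : ℕ} (f : M.E → N.E) (b : M.E) (a : Fin n → M.E) :
    (fun i => f ((Fin.cons b a : Fin (n + 1) → M.E) i)) =
      (Fin.cons (f b) (fun i => f (a i)) : Fin (n + 1) → N.E) := by
  funext i
  refine Fin.cases rfl (fun i => rfl) i

/-- sups of bounded functions with close values -/
theorem sup_eq_of {α β : Type} [Nonempty α] [Nonempty β] {f : α → ℝ} {g : β → ℝ}
    {C : ℝ} (hf : ∀ a, |f a| ≤ C) (hg : ∀ b, |g b| ≤ C)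
    (h1 : ∀ a, ∀ ε : ℝ, 0 < ε → ∃ b, |f a - g b| ≤ ε)
    (h2 : ∀ b, ∃ a, f a = g b) : (⨆ a, f a) = ⨆ b, g b := by
  apply le_antisymm
  · apply le_of_forall_pos_le_add
    intro ε hε
    refine ciSup_le fun a => ?_
    obtain ⟨b, hb⟩ := h1 a ε hε
    have := le_ciSup (f := g) ⟨C, by rintro _ ⟨b, rfl⟩; exact (abs_le.1 (hg b)).2⟩ b
    linarith [(abs_le.1 hb).2]
  · refine ciSup_le fun b => ?_
    obtain ⟨a, ha⟩ := h2 b
    rw [← ha]
    exact le_ciSup (f := f) ⟨C, by rintro _ ⟨b, rfl⟩; exact (abs_le.1 (hf b)).2⟩ a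

theorem inf_eq_of {α β : Type} [Nonempty α] [Nonempty β] {f : α → ℝ} {g : β → ℝ}
    {C : ℝ} (hf : ∀ a, |f a| ≤ C) (hg : ∀ b, |g b| ≤ C)
    (h1 : ∀ a, ∀ ε : ℝ, 0 < ε → ∃ b, |f a - g b| ≤ ε)
    (h2 : ∀ b, ∃ a, f a = g b) : (⨅ a, f a) = ⨅ b, g b := by
  apply le_antisymm
  · refine le_ciInf fun b => ?_
    obtain ⟨a, ha⟩ := h2 b
    rw [← ha]
    exact ciInf_le (f := f) ⟨-C, by rintro _ ⟨b, rfl⟩; exact (abs_le.1 (hf b)).1⟩ a
  · apply le_of_forall_pos_le_add
    intro ε hε
    rw [← sub_le_iff_le_add]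
    refine le_ciInf fun a => ?_
    obtain ⟨b, hb⟩ := h1 a ε hε
    have := ciInf_le (f := g) ⟨-C, by rintro _ ⟨b, rfl⟩; exact (abs_le.1 (hg b)).1⟩ b
    linarith [(abs_le.1 hb).1]

theorem transfer {M N : TVN} (α : N.E →⋆ₐ[ℂ] M.E) (htr : ∀ x, M.τ (α x) = N.τ x)
    (hop : ∀ x, M.opNorm (α x) = N.opNorm x) (hH : TVprop α) {n : ℕ} (φ : Fm n) :
    ∀ x : Fin n → N.E, φ.val (str N) x = φ.val (str M) (fun i => α (x i)) := by
  have hn2 : ∀ x : N.E, M.norm2 (α x) = N.norm2 x := by
    intro x
    unfold TVN.norm2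
    rw [← map_star, ← map_mul, htr]
  induction φ with
  | re t =>
    intro x
    show (N.τ (tval N x t)).re = (M.τ (tval M (fun i => α (x i)) t)).re
    rw [tval_hom, htr]
  | im t =>
    intro x
    show (N.τ (tval N x t)).im = (M.τ (tval M (fun i => α (x i)) t)).im
    rw [tval_hom, htr]
  | nrm t =>
    intro x
    show N.norm2 (tval N x t) = M.norm2 (tval M (fun i => α (x i)) t)
    rw [tval_hom, hn2]
  | conn u φ ih =>
    intro x
    show u (fun i => (φ i).val (str N) _) = u (fun i => (φ i).val (str M) _)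
    congr 1
    funext i
    exact ih i x
  | @sup n r φ ih =>
    intro x
    obtain ⟨C, hC⟩ := bdd_of φ r M (fun i => α (x i))
    have e : ∀ y : (str N).Ball r, φ.val (str N) (Fin.cons y.1 x : Fin (n + 1) → N.E) =
        φ.val (str M) (Fin.cons (α y.1) (fun i => α (x i)) : Fin (n + 1) → M.E) := by
      intro y
      refine (ih (Fin.cons y.1 x : Fin (n + 1) → N.E)).trans ?_
      congr 1
      exact cons_fun (M := N) (N := M) α y.1 x
    have hb : ∀ y : (str N).Ball r, M.opNorm (α y.1) ≤ r := by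
      intro y
      exact (hop y.1).le.trans y.2
    show (⨆ y : (str N).Ball r, φ.val (str N) (Fin.cons y.1 x : Fin (n + 1) → N.E)) =
      ⨆ z : (str M).Ball r, φ.val (str M) (Fin.cons z.1 (fun i => α (x i)) : Fin (n + 1) → M.E)
    symm
    have := ball_nonempty M r
    have := ball_nonempty N r
    refine sup_eq_of (C := C) hC (fun y => ?_) (fun z ε hε => ?_) (fun y => ?_)
    · rw [e]
      exact hC ⟨α y.1, hb y⟩
    · obtain ⟨y, hy⟩ := hH n φ x r z ε hε
      refine ⟨y, ?_⟩
      rw [e]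
      exact hy
    · exact ⟨⟨α y.1, hb y⟩, (e y).symm⟩
  | @inf n r φ ih =>
    intro x
    obtain ⟨C, hC⟩ := bdd_of φ r M (fun i => α (x i))
    have e : ∀ y : (str N).Ball r, φ.val (str N) (Fin.cons y.1 x : Fin (n + 1) → N.E) =
        φ.val (str M) (Fin.cons (α y.1) (fun i => α (x i)) : Fin (n + 1) → M.E) := by
      intro y
      refine (ih (Fin.cons y.1 x : Fin (n + 1) → N.E)).trans ?_
      congr 1
      exact cons_fun (M := N) (N := M) α y.1 x
    have hb : ∀ y : (str N).Ball r, M.opNorm (α y.1) ≤ r := by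
      intro y
      exact (hop y.1).le.trans y.2
    show (⨅ y : (str N).Ball r, φ.val (str N) (Fin.cons y.1 x : Fin (n + 1) → N.E)) =
      ⨅ z : (str M).Ball r, φ.val (str M) (Fin.cons z.1 (fun i => α (x i)) : Fin (n + 1) → M.E)
    symm
    have := ball_nonempty M r
    have := ball_nonempty N r
    refine inf_eq_of (C := C) hC (fun y => ?_) (fun z ε hε => ?_) (fun y => ?_)
    · rw [e]
      exact hC ⟨α y.1, hb y⟩
    · obtain ⟨y, hy⟩ := hH n φ x r z ε hε
      refine ⟨y, ?_⟩
      rw [e]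
      exact hy
    · exact ⟨⟨α y.1, hb y⟩, (e y).symm⟩

theorem elemEq_of {H : Subgroup G} (hH : TVprop (iotaT H)) : (groupVN H).ElemEq (groupVN G) := by
  intro φ
  have h := transfer (iotaT H) (tau_iotaT H) (op_iotaT H) hH φ Fin.elim0
  have e : (fun i => iotaT H ((Fin.elim0 : Fin 0 → (tvn H).E) i)) =
      (Fin.elim0 : Fin 0 → (tvn G).E) := by
    funext i
    exact i.elim0
  rw [e] at h
  exact h

end Pool.Agent.R283.GV
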