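import Pool.Agent.H667R2.FG.TTPOS

/-! # Group von Neumann algebras: commutation theorem, subgroups -/

set_option autoImplicit false

namespace Pool.Agent.R283.GV

open Pool.Agent.H667R2.FG (Ell Op permOp lam rho delta LG EltG tau)
open Pool.Agent.H667R2.FG.TL2 (delta_apply norm_delta inner_delta lam_delta rho_delta lam_mul
  lam_one star_lam star_rho lam_rho mem_LG mem_comm lam_mem comm_rho coef_apply star_coef
  star_comm_rho permOp_apply)
open scoped ComplexConjugate InnerProductSpace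

section basic

variable {G : Type}

theorem ext_delta {F : Type*} [NormedAddCommGroup F] [NormedSpace ℂ F] {x y : Ell G →L[ℂ] F}
    (h : ∀ g, x (delta g) = y (delta g)) : x = y := by
  let := Classical.decEq G
  ext ξ
  have h1 := lp.hasSum_single (E := fun _ : G => ℂ) (p := 2) (by norm_num) ξ
  have h2 := h1.mapL x
  have h3 := h1.mapL y
  have e : ∀ i, (lp.single 2 i (ξ i) : Ell G) = (ξ i) • (delta i : Ell G) := by
    intro i
    unfold delta
    rw [← lp.single_smul]
    congr 1
    simp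
  have h4 : (fun i => x (lp.single 2 i (ξ i))) = fun i => y (lp.single 2 i (ξ i)) := by
    funext i
    rw [e, map_smul, map_smul, h]
  rw [h4] at h2
  exact h2.unique h3

theorem hasSum_sq (f : Ell G) : HasSum (fun g => ‖f g‖ ^ 2) (‖f‖ ^ 2) := by
  have h := lp.hasSum_inner (𝕜 := ℂ) f f
  have h1 := (Complex.hasSum_re h)
  have e1 : (⟪f, f⟫_ℂ).re = ‖f‖ ^ 2 := inner_self_eq_norm_sq (𝕜 := ℂ) f
  rw [e1] at h1
  refine h1.congr_fun ?_ |> id
  intro g
  exact (inner_self_eq_norm_sq (𝕜 := ℂ) (f g)).symm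

theorem inner_delta_left [Group G] (x : Op G) (k m : G) :
    ((star x) (delta k)) m = conj ((x (delta m)) k) := by
  rw [← inner_delta m, ContinuousLinearMap.star_eq_adjoint,
    ContinuousLinearMap.adjoint_inner_right, ← inner_conj_symm, inner_delta]

theorem apply_coord [Group G] (t : Op G) (ξ : Ell G) (k : G) :
    (t ξ) k = ∑' m, (t (delta m)) k * ξ m := by
  rw [← inner_delta k, ← ContinuousLinearMap.adjoint_inner_left,
    ← ContinuousLinearMap.star_eq_adjoint, lp.inner_eq_tsum]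
  refine tsum_congr fun m => ?_
  rw [inner_delta_left, RCLike.inner_apply, Complex.conj_conj, mul_comm]

end basic

variable {G : Type} [Group G]

/-- the commutation theorem -/
theorem mem_LG_of {x : Op G} (hx : ∀ g, x * rho g = rho g * x) : x ∈ LG G := by
  have key : ∀ t : Op G, (∀ g, lam g * t = t * lam g) → t * x = x * t := by
    intro t ht
    have h1 : ∀ m k : G, (t (delta m)) k = (t (delta 1)) (m⁻¹ * k) := by
      intro m k
      have e1 := congrArg (fun z : Op G => z (delta 1)) (ht m)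
      have e2 : lam m (t (delta 1)) = t (lam m (delta 1)) := e1
      rw [lam_delta, mul_one] at e2
      rw [← e2]
      rfl
    apply ext_delta
    intro g
    ext k
    show (t (x (delta g))) k = (x (t (delta g))) k
    rw [apply_coord t, apply_coord x]
    let e : G ≃ G := ((Equiv.inv G).trans (Equiv.mulLeft k)).trans (Equiv.mulRight g)
    rw [← e.tsum_eq]
    refine tsum_congr fun m => ?_
    have he : e m = k * m⁻¹ * g := rfl
    rw [he, h1, h1 g, coef_apply x hx, coef_apply x hx m, mul_comm]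
    congr 2
    · group
    · group
  rw [mem_LG]
  intro t ht
  have ht' := (mem_comm t).1 ht
  refine ⟨key t ht', key (star t) fun g => ?_⟩
  have h1 := congrArg star (ht' g⁻¹)
  rw [star_mul, star_mul, star_lam, inv_inv] at h1
  exact h1.symm

theorem tau_one : tau (1 : Op G) = 1 := by
  classical
  show (delta (1 : G) : Ell G) 1 = 1
  rw [delta_apply, if_pos rfl]

theorem tau_eq_inner (x : Op G) : tau x = ⟪(delta (1:G) : Ell G), x (delta 1)⟫_ℂ :=
  (inner_delta (1 : G) _).symm

theorem elt_ext {x y : EltG G} (h : (x : Op G) (delta 1) = (y : Op G) (delta 1)) : x = y := by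
  have h1 : ((x - y : EltG G) : Op G) (delta 1) = 0 := by
    show (x : Op G) (delta 1) - (y : Op G) (delta 1) = 0
    rw [h, sub_self]
  have h2 := Pool.Agent.H667R2.FG.eq_zero_of_delta (x - y : EltG G) h1
  exact sub_eq_zero.1 (Subtype.ext h2)

/-! ## Subgroups -/

section sub

variable (K : Subgroup G)

/-- restriction to the coset `K g` -/
noncomputable def restr (g : G) : Ell G →L[ℂ] Ell K :=
  LinearMap.mkContinuous
    { toFun := fun ξ => ⟨fun h : K => ξ ((h : G) * g), by
        refine memℓp_gen ?_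
        have h1 := (lp.memℓp ξ).summable (by norm_num)
        exact h1.comp_injective (i := fun h : K => (h : G) * g)
          (fun a b hab => Subtype.ext (mul_right_cancel hab))⟩
      map_add' := fun ξ η => by ext h; rfl
      map_smul' := fun c ξ => by ext h; rfl } 1 (by
    intro ξ
    rw [one_mul]
    apply le_of_sq_le_sq _ (norm_nonneg _)
    rw [← (hasSum_sq ξ).tsum_eq, ← (hasSum_sq _).tsum_eq]
    exact tsum_comp_le_tsum_of_inj (hasSum_sq ξ).summable (fun _ => by positivity)
      (i := fun h : K => (h : G) * g) (fun a b hab => Subtype.ext (mul_right_cancel hab)))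

theorem restr_apply (g : G) (ξ : Ell G) (h : K) : (restr K g ξ) h = ξ ((h : G) * g) := rfl

theorem norm_restr_le (g : G) : ‖restr K g‖ ≤ 1 := LinearMap.mkContinuous_norm_le _ zero_le_one _

/-- extension by zero -/
noncomputable def ext0 : Ell K →L[ℂ] Ell G := ContinuousLinearMap.adjoint (restr K 1)

theorem norm_ext0_le : ‖ext0 K‖ ≤ 1 := by
  unfold ext0
  rw [LinearIsometryEquiv.norm_map]
  exact norm_restr_le K 1

theorem restr_delta (g k : G) : restr K k (delta g) =
    open Classical in if h : g * k⁻¹ ∈ K then (delta (⟨g * k⁻¹, h⟩ : K) : Ell K) else 0 := by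
  classical
  ext m
  rw [restr_apply, delta_apply]
  split_ifs with h1 h2 h2
  · rw [delta_apply, if_pos]
    apply Subtype.ext
    show (m : G) = g * k⁻¹
    rw [← h1]
    group
  · exfalso
    apply h2
    rw [← h1]
    have : (m : G) * k * k⁻¹ = m := by group
    rw [this]
    exact m.2
  · rw [delta_apply, if_neg]
    rintro rfl
    apply h1
    show g * k⁻¹ * k = g
    group
  · rfl

theorem ext0_apply (ζ : Ell K) (g : G) :
    (ext0 K ζ) g = open Classical in if h : g ∈ K then ζ ⟨g, h⟩ else 0 := by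
  classical
  rw [← inner_delta g]
  unfold ext0
  rw [ContinuousLinearMap.adjoint_inner_right, restr_delta]
  simp only [inv_one, mul_one]
  split_ifs with h
  · exact inner_delta _ _
  · exact inner_zero_left _

theorem ext0_delta (h : K) : ext0 K (delta h) = delta (h : G) := by
  classical
  ext g
  rw [ext0_apply, delta_apply]
  split_ifs with h1 h2 h2
  · subst h2
    rw [delta_apply, if_pos rfl]
  · rw [delta_apply, if_neg]
    intro e
    exact h2 (congrArg Subtype.val e)
  · exact absurd (h2 ▸ h.2) h1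
  · rfl

theorem restr_rho (g k : G) (ξ : Ell G) : restr K g (rho k ξ) = restr K (g * k) ξ := by
  ext h
  show ξ ((h : G) * g * k) = ξ ((h : G) * (g * k))
  rw [mul_assoc]

theorem restr_mul (h : K) (g : G) (ξ : Ell G) :
    restr K ((h : G) * g) ξ = rho h (restr K g ξ) := by
  ext m
  show ξ ((m : G) * ((h : G) * g)) = ξ (((m * h : K) : G) * g)
  rw [← mul_assoc]
  rfl

theorem restr_ext0 (g : G) (ζ : Ell K) : restr K g (ext0 K ζ) =
    open Classical in if h : g ∈ K then rho (⟨g, h⟩ : K) ζ else 0 := by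
  classical
  ext m
  rw [restr_apply, ext0_apply]
  split_ifs with h1 h2 h2
  · rfl
  · exact absurd ((K.mul_mem_cancel_left m.2).1 h1) h2
  · exact absurd (K.mul_mem m.2 h2) h1
  · rfl

/-- right cosets -/
noncomputable def eqv : (G ⧸ K) × K ≃ G where
  toFun p := (p.2 : G) * (p.1.out)⁻¹
  invFun g := (QuotientGroup.mk g⁻¹, ⟨g * (QuotientGroup.mk g⁻¹ : G ⧸ K).out, by
    have h : (QuotientGroup.mk g⁻¹ : G ⧸ K) =
        QuotientGroup.mk ((QuotientGroup.mk g⁻¹ : G ⧸ K).out) := (QuotientGroup.out_eq' _).symm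
    rw [QuotientGroup.eq, inv_inv] at h
    exact h⟩)
  left_inv p := by
    obtain ⟨q, h⟩ := p
    have h1 : (QuotientGroup.mk ((h : G) * (q.out)⁻¹)⁻¹ : G ⧸ K) = q := by
      rw [mul_inv_rev, inv_inv]
      conv_rhs => rw [← QuotientGroup.out_eq' q]
      rw [QuotientGroup.eq]
      have : (q.out * (h : G)⁻¹)⁻¹ * q.out = h := by group
      rw [this]
      exact h.2
    apply Prod.ext
    · exact h1
    · apply Subtype.ext
      show (h : G) * (q.out)⁻¹ * (QuotientGroup.mk ((h : G) * (q.out)⁻¹)⁻¹ : G ⧸ K).out = h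
      rw [h1]
      group
  right_inv g := by
    show g * (QuotientGroup.mk g⁻¹ : G ⧸ K).out * ((QuotientGroup.mk g⁻¹ : G ⧸ K).out)⁻¹ = g
    group

theorem eqv_apply (q : G ⧸ K) (h : K) : eqv K (q, h) = (h : G) * (q.out)⁻¹ := rfl

variable {K}

theorem coord_formula (x : Op K) (hx : ∀ h, x * rho h = rho h * x) (ξ : Ell G) (q : G ⧸ K)
    (h : K) : (x (restr K (eqv K (q, h)) ξ)) 1 = (x (restr K (q.out)⁻¹ ξ)) h := by
  rw [eqv_apply, restr_mul]
  have h1 := congrArg (fun z : Op K => z (restr K (q.out)⁻¹ ξ)) (hx h)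
  have h2 : x (rho h (restr K (q.out)⁻¹ ξ)) = rho h (x (restr K (q.out)⁻¹ ξ)) := h1
  rw [h2]
  show (x (restr K (q.out)⁻¹ ξ)) (1 * h) = _
  rw [one_mul]

theorem summable_restr (ξ : Ell G) : Summable fun q : G ⧸ K => ‖restr K (q.out)⁻¹ ξ‖ ^ 2 := by
  have h1 : Summable fun p : (G ⧸ K) × K => ‖ξ (eqv K p)‖ ^ 2 :=
    (eqv K).summable_iff.2 (hasSum_sq ξ).summable
  have h2 := h1.prod
  refine h2.congr fun q => ?_
  exact (hasSum_sq (restr K (q.out)⁻¹ ξ)).tsum_eq

theorem tsum_restr (ξ : Ell G) : ∑' q : G ⧸ K, ‖restr K (q.out)⁻¹ ξ‖ ^ 2 = ‖ξ‖ ^ 2 := by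
  have h1 : Summable fun p : (G ⧸ K) × K => ‖ξ (eqv K p)‖ ^ 2 :=
    (eqv K).summable_iff.2 (hasSum_sq ξ).summable
  rw [← (hasSum_sq ξ).tsum_eq, ← (eqv K).tsum_eq, h1.tsum_prod]
  refine tsum_congr fun q => ?_
  exact ((hasSum_sq (restr K (q.out)⁻¹ ξ)).tsum_eq).symm

theorem summable_iota (x : Op K) (hx : ∀ h, x * rho h = rho h * x) (ξ : Ell G) :
    Summable (fun g : G => ‖(x (restr K g ξ)) 1‖ ^ 2) ∧
      ∑' g : G, ‖(x (restr K g ξ)) 1‖ ^ 2 ≤ (‖x‖ * ‖ξ‖) ^ 2 := by
  have e : ∀ p : (G ⧸ K) × K, ‖(x (restr K (eqv K p) ξ)) 1‖ ^ 2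
      = ‖(x (restr K (p.1.out)⁻¹ ξ)) p.2‖ ^ 2 := by
    rintro ⟨q, h⟩
    rw [coord_formula x hx]
  have hb : ∀ q : G ⧸ K, ‖x (restr K (q.out)⁻¹ ξ)‖ ^ 2 ≤ ‖x‖ ^ 2 * ‖restr K (q.out)⁻¹ ξ‖ ^ 2 := by
    intro q
    rw [← mul_pow]
    gcongr
    exact x.le_opNorm _
  have hs : Summable fun q : G ⧸ K => ‖x (restr K (q.out)⁻¹ ξ)‖ ^ 2 :=
    Summable.of_nonneg_of_le (fun q => by positivity) hb ((summable_restr ξ).mul_left _)
  have hS : Summable fun p : (G ⧸ K) × K => ‖(x (restr K (p.1.out)⁻¹ ξ)) p.2‖ ^ 2 := by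
    rw [summable_prod_of_nonneg (fun p => sq_nonneg _)]
    constructor
    · intro q
      show Summable fun h : K => ‖(x (restr K (q.out)⁻¹ ξ)) h‖ ^ 2
      exact (hasSum_sq (x (restr K (q.out)⁻¹ ξ))).summable
    · have e2 : ∀ q : G ⧸ K, ∑' h : K, ‖(x (restr K (q.out)⁻¹ ξ)) h‖ ^ 2
          = ‖x (restr K (q.out)⁻¹ ξ)‖ ^ 2 := fun q =>
        (hasSum_sq (x (restr K (q.out)⁻¹ ξ))).tsum_eq
      show Summable fun q : G ⧸ K => ∑' h : K, ‖(x (restr K (q.out)⁻¹ ξ)) h‖ ^ 2
      simp only [e2]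
      exact hs
  constructor
  · rw [← (eqv K).summable_iff]
    refine hS.congr fun p => ?_
    exact (e p).symm
  · rw [← (eqv K).tsum_eq]
    simp only [e]
    rw [hS.tsum_prod]
    have h1 : ∀ q : G ⧸ K, ∑' h : K, ‖(x (restr K (q.out)⁻¹ ξ)) h‖ ^ 2
        = ‖x (restr K (q.out)⁻¹ ξ)‖ ^ 2 := fun q =>
      (hasSum_sq (x (restr K (q.out)⁻¹ ξ))).tsum_eq
    simp only [h1]
    calc ∑' q : G ⧸ K, ‖x (restr K (q.out)⁻¹ ξ)‖ ^ 2
        ≤ ∑' q : G ⧸ K, ‖x‖ ^ 2 * ‖restr K (q.out)⁻¹ ξ‖ ^ 2 :=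
          hs.tsum_le_tsum hb ((summable_restr ξ).mul_left _)
      _ = (‖x‖ * ‖ξ‖) ^ 2 := by rw [tsum_mul_left, tsum_restr, mul_pow]

/-- the extension of an operator of `L(K)` to an operator of `L(G)` -/
noncomputable def iotaOp (x : Op K) (hx : ∀ h, x * rho h = rho h * x) : Op G :=
  LinearMap.mkContinuous
    { toFun := fun ξ => ⟨fun g : G => (x (restr K g ξ)) 1, by
        refine memℓp_gen ?_
        have h1 := (summable_iota x hx ξ).1
        refine h1.congr fun g => ?_
        norm_num⟩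
      map_add' := fun ξ η => by
        ext g
        show (x (restr K g (ξ + η))) 1 = (x (restr K g ξ)) 1 + (x (restr K g η)) 1
        rw [map_add, map_add]
        rfl
      map_smul' := fun c ξ => by
        ext g
        show (x (restr K g (c • ξ))) 1 = c • (x (restr K g ξ)) 1
        rw [map_smul, map_smul]
        rfl } ‖x‖ (by
    intro ξ
    apply le_of_sq_le_sq _ (by positivity)
    rw [← (hasSum_sq _).tsum_eq]
    exact (summable_iota x hx ξ).2)

theorem iotaOp_apply (x : Op K) (hx : ∀ h, x * rho h = rho h * x) (ξ : Ell G) (g : G) :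
    (iotaOp x hx ξ) g = (x (restr K g ξ)) 1 := rfl

theorem norm_iotaOp_le (x : Op K) (hx : ∀ h, x * rho h = rho h * x) : ‖iotaOp x hx‖ ≤ ‖x‖ :=
  LinearMap.mkContinuous_norm_le _ (norm_nonneg _) _

theorem iotaOp_comm (x : Op K) (hx : ∀ h, x * rho h = rho h * x) (g : G) :
    iotaOp x hx * rho g = rho g * iotaOp x hx := by
  ext ξ k
  show (x (restr K k (rho g ξ))) 1 = (x (restr K (k * g) ξ)) 1
  rw [restr_rho]

/-- elements of `L(K)` -/
theorem elt_comm (x : EltG K) (h : K) : (x : Op K) * rho h = rho h * (x : Op K) :=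
  comm_rho _ x.2 h

variable (K) in
/-- the embedding of `L(K)` in `L(G)` -/
noncomputable def iota (x : EltG K) : EltG G :=
  ⟨iotaOp (x : Op K) (elt_comm x), mem_LG_of (iotaOp_comm (x : Op K) (elt_comm x))⟩

theorem iota_apply (x : EltG K) (ξ : Ell G) (g : G) :
    ((iota K x : EltG G) : Op G) ξ g = ((x : Op K) (restr K g ξ)) 1 := rfl

theorem iota_ext0 (x : EltG K) (ζ : Ell K) :
    ((iota K x : EltG G) : Op G) (ext0 K ζ) = ext0 K ((x : Op K) ζ) := by
  classical
  ext g
  rw [iota_apply, restr_ext0, ext0_apply]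
  split_ifs with h
  · have h1 := congrArg (fun z : Op K => z ζ) (elt_comm x ⟨g, h⟩)
    have h2 : (x : Op K) (rho ⟨g, h⟩ ζ) = rho ⟨g, h⟩ ((x : Op K) ζ) := h1
    rw [h2]
    show ((x : Op K) ζ) (1 * ⟨g, h⟩) = _
    rw [one_mul]
  · rw [map_zero]
    rfl

theorem iota_delta (x : EltG K) :
    ((iota K x : EltG G) : Op G) (delta 1) = ext0 K ((x : Op K) (delta 1)) := by
  have h := iota_ext0 x (delta 1)
  rw [ext0_delta] at h
  exact h

theorem norm_iota_le (x : EltG K) : ‖((iota K x : EltG G) : Op G)‖ ≤ ‖(x : Op K)‖ :=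
  norm_iotaOp_le (x : Op K) (elt_comm x)

variable (K) in
/-- the compression to `ℓ²(K)` -/
noncomputable def cmpOp (y : Op G) : Op K := (restr K 1) ∘L y ∘L (ext0 K)

theorem cmpOp_apply (y : Op G) (ζ : Ell K) : cmpOp K y ζ = restr K 1 (y (ext0 K ζ)) := rfl

theorem ext0_rho (h : K) (ζ : Ell K) : ext0 K (rho h ζ) = rho (h : G) (ext0 K ζ) := by
  classical
  ext g
  show (ext0 K (rho h ζ)) g = (ext0 K ζ) (g * h)
  rw [ext0_apply, ext0_apply]
  by_cases hg : g ∈ K
  · rw [dif_pos hg, dif_pos (K.mul_mem hg h.2)]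
    rfl
  · rw [dif_neg hg, dif_neg (fun h2 => hg ((K.mul_mem_cancel_right h.2).1 h2))]

variable (K) in
/-- the compression of an element of `L(G)` -/
noncomputable def cmp (y : EltG G) : EltG K :=
  ⟨cmpOp K (y : Op G), mem_LG_of (by
    intro h
    ext ζ m
    show (restr K 1 ((y : Op G) (ext0 K (rho h ζ)))) m = (restr K 1 ((y : Op G) (ext0 K ζ))) (m * h)
    rw [ext0_rho]
    have h1 := congrArg (fun z : Op G => z (ext0 K ζ)) (comm_rho _ y.2 (h : G))
    have h2 : (y : Op G) (rho (h : G) (ext0 K ζ)) = rho (h : G) ((y : Op G) (ext0 K ζ)) := h1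
    rw [h2]
    show ((y : Op G) (ext0 K ζ)) ((m : G) * 1 * h) = ((y : Op G) (ext0 K ζ)) (((m * h : K) : G) * 1)
    rw [mul_one, mul_one]
    rfl)⟩

theorem norm_cmp_le (y : EltG G) : ‖(cmp K y : Op K)‖ ≤ ‖(y : Op G)‖ := by
  show ‖(restr K 1) ∘L (y : Op G) ∘L (ext0 K)‖ ≤ _
  have h1 := ContinuousLinearMap.opNorm_comp_le (restr K 1) ((y : Op G) ∘L (ext0 K))
  have h2 := ContinuousLinearMap.opNorm_comp_le (y : Op G) (ext0 K)
  have h3 := norm_restr_le K 1
  have h4 := norm_ext0_le K
  have h5 := norm_nonneg (y : Op G)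
  calc ‖(restr K 1) ∘L (y : Op G) ∘L (ext0 K)‖ ≤ ‖restr K 1‖ * ‖(y : Op G) ∘L (ext0 K)‖ := h1
    _ ≤ 1 * (‖(y : Op G)‖ * 1) := by
        apply mul_le_mul h3 (h2.trans _) (norm_nonneg _) zero_le_one
        gcongr
    _ = _ := by ring

theorem cmp_delta (y : EltG G) (h : K) :
    ((cmp K y : EltG K) : Op K) (delta 1) h = ((y : Op G) (delta 1)) h := by
  show (restr K 1 ((y : Op G) (ext0 K (delta 1)))) h = _
  rw [ext0_delta, restr_apply, mul_one]
  rfl

theorem cmp_iota (x : EltG K) : cmp K (iota K x) = x := by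
  classical
  apply elt_ext
  ext h
  rw [cmp_delta, iota_delta, ext0_apply, dif_pos h.2]

/-- the conditional expectation -/
theorem iota_cmp_delta (y : EltG G) (g : G) :
    ((iota K (cmp K y) : EltG G) : Op G) (delta 1) g =
      open Classical in if g ∈ K then ((y : Op G) (delta 1)) g else 0 := by
  classical
  rw [iota_delta, ext0_apply]
  split_ifs with h
  · exact cmp_delta y ⟨g, h⟩
  · rfl

/-- the elements of `L(G)` supported on `K` come from `L(K)` -/
theorem iota_cmp_of {y : EltG G} (hy : ∀ g, g ∉ K → ((y : Op G) (delta 1)) g = 0) :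
    iota K (cmp K y) = y := by
  classical
  apply elt_ext
  ext g
  rw [iota_cmp_delta]
  split_ifs with h
  · rfl
  · exact (hy g h).symm

theorem iota_supp (x : EltG K) (g : G) (hg : g ∉ K) :
    (((iota K x : EltG G) : Op G) (delta 1)) g = 0 := by
  classical
  rw [iota_delta, ext0_apply, dif_neg hg]

theorem norm_iota (x : EltG K) : ‖((iota K x : EltG G) : Op G)‖ = ‖(x : Op K)‖ := by
  apply le_antisymm (norm_iota_le x)
  conv_lhs => rw [← cmp_iota x]
  exact norm_cmp_le _

theorem norm_iota_delta (x : EltG K) :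
    ‖((iota K x : EltG G) : Op G) (delta 1)‖ = ‖(x : Op K) (delta 1)‖ := by
  classical
  have h1 : ‖((iota K x : EltG G) : Op G) (delta 1)‖ ^ 2 = ‖(x : Op K) (delta 1)‖ ^ 2 := by
    rw [← (hasSum_sq _).tsum_eq, ← (hasSum_sq _).tsum_eq, iota_delta]
    have h2 := tsum_subtype_eq_of_support_subset (f := fun g : G =>
      ‖(ext0 K ((x : Op K) (delta 1))) g‖ ^ 2) (s := (K : Set G)) (by
        intro g hg
        by_contra h
        apply hg
        have h' : g ∉ K := h
        have e3 : (ext0 K ((x : Op K) (delta 1))) g = 0 := by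
          rw [ext0_apply, dif_neg h']
        simp only [e3]
        simp)
    rw [← h2]
    refine tsum_congr fun h => ?_
    have e4 : (ext0 K ((x : Op K) (delta 1))) (h : G) = ((x : Op K) (delta 1)) h := by
      rw [ext0_apply]
      exact dif_pos h.2
    rw [e4]
  exact (sq_eq_sq₀ (norm_nonneg _) (norm_nonneg _)).1 h1

variable (K) in
/-- the embedding as a star homomorphism -/
noncomputable def iotaHom : EltG K →⋆ₐ[ℂ] EltG G where
  toFun := iota K
  map_one' := by
    apply elt_ext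
    rw [iota_delta]
    show ext0 K (delta 1) = delta 1
    rw [ext0_delta]
    rfl
  map_mul' x y := by
    apply elt_ext
    rw [iota_delta]
    show ext0 K ((x : Op K) ((y : Op K) (delta 1))) =
      ((iota K x : EltG G) : Op G) (((iota K y : EltG G) : Op G) (delta 1))
    rw [iota_delta, iota_ext0]
  map_zero' := by
    apply elt_ext
    rw [iota_delta]
    show ext0 K 0 = 0
    rw [map_zero]
  map_add' x y := by
    apply elt_ext
    rw [iota_delta]
    show ext0 K ((x : Op K) (delta 1) + (y : Op K) (delta 1)) =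
      ((iota K x : EltG G) : Op G) (delta 1) + ((iota K y : EltG G) : Op G) (delta 1)
    rw [iota_delta, iota_delta, map_add]
  commutes' c := by
    apply elt_ext
    rw [iota_delta]
    show ext0 K (c • delta 1) = c • delta 1
    rw [map_smul, ext0_delta]
    rfl
  map_star' x := by
    classical
    apply elt_ext
    ext g
    rw [iota_delta, ext0_apply]
    have h1 : (((star (iota K x) : EltG G) : Op G) (delta 1)) g
        = conj ((((iota K x : EltG G) : Op G) (delta 1)) g⁻¹) :=
      star_coef _ (fun k => comm_rho _ (iota K x).2 k) g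
    rw [h1, iota_delta, ext0_apply]
    split_ifs with h h2 h2
    · have h3 : (((star x : EltG K) : Op K) (delta 1)) ⟨g, h⟩
          = conj (((x : Op K) (delta 1)) (⟨g, h⟩ : K)⁻¹) :=
        star_coef _ (elt_comm x) ⟨g, h⟩
      rw [h3]
      rfl
    · exact absurd (K.inv_mem h) h2
    · exact absurd (by simpa using K.inv_mem h2) h
    · simp

theorem iotaHom_apply (x : EltG K) : iotaHom K x = iota K x := rfl

theorem tau_iota (x : EltG K) : tau ((iota K x : EltG G) : Op G) = tau (x : Op K) := by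
  classical
  show (((iota K x : EltG G) : Op G) (delta 1)) 1 = ((x : Op K) (delta 1)) 1
  rw [iota_delta, ext0_apply, dif_pos K.one_mem]
  rfl

end sub

end Pool.Agent.R283.GV
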